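import Mathlib

/-!
Finite abelian groups with coordinates: coset counting.
-/

namespace Pool.Agent.Q224.Tri

set_option linter.unusedSectionVars false

open Finset
open scoped Classical

noncomputable section

variable {G : Type} [AddCommGroup G] [Fintype G] {ι : Type} [Fintype ι] (K : ι → AddSubgroup G)

/-- the support of `g`: the coordinates at which it is not zero -/
def sup (g : G) : Finset ι := univ.filter (fun i => g ∉ K i)

/-- the weight -/
def wt (g : G) : ℕ := (sup K g).card

variable {K}

theorem mem_sup {g : G} {i : ι} : i ∈ sup K g ↔ g ∉ K i := by simp [sup]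

theorem sup_neg (g : G) : sup K (-g) = sup K g := by
  ext i; simp [mem_sup]

theorem wt_neg (g : G) : wt K (-g) = wt K g := by rw [wt, wt, sup_neg]

theorem wt_zero : wt K (0 : G) = 0 := by
  rw [wt, card_eq_zero]; ext i; simp [mem_sup, (K i).zero_mem]

theorem sum_zero_le (C : AddSubgroup G) (U : Finset ι)
    (h2 : ∀ c ∈ C, c ≠ 0 → ∀ i ∈ U, c ∉ K i) (x : G) (T : Finset G) (hT : ∀ c ∈ T, c ∈ C) :
    ∑ c ∈ T, (U \ sup K (x + c)).card ≤ U.card := by
  have : ∀ c, (U \ sup K (x + c)).card = ∑ i ∈ U, if x + c ∈ K i then 1 else 0 := by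
    intro c
    rw [← Finset.card_filter]
    congr 1
    ext i
    simp [sup]
  simp_rw [this]
  rw [Finset.sum_comm]
  calc ∑ i ∈ U, ∑ c ∈ T, (if x + c ∈ K i then 1 else 0) ≤ ∑ i ∈ U, 1 := by
        refine Finset.sum_le_sum fun i hi => ?_
        rw [← Finset.card_filter]
        refine Finset.card_le_one.2 ?_
        intro a ha b hb
        simp only [Finset.mem_filter] at ha hb
        by_contra hne
        refine h2 (a - b) (C.sub_mem (hT a ha.1) (hT b hb.1)) (sub_ne_zero.2 hne) i hi ?_
        have := (K i).sub_mem ha.2 hb.2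
        simpa using this
    _ = U.card := by simp

theorem wt_split (U : Finset ι) (x : G) :
    wt K x + (U \ sup K x).card = (sup K x \ U).card + U.card := by
  have h1 := Finset.card_sdiff_add_card_inter (sup K x) U
  have h2 := Finset.card_sdiff_add_card_inter U (sup K x)
  rw [Finset.inter_comm] at h2
  rw [wt]
  omega

theorem out_add (C : AddSubgroup G) (U : Finset ι) (h1 : ∀ c ∈ C, ∀ i, i ∉ U → c ∈ K i)
    (x c : G) (hc : c ∈ C) : sup K (x + c) \ U = sup K x \ U := by
  ext i
  simp only [mem_sdiff, mem_sup]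
  constructor
  · rintro ⟨h, hi⟩
    exact ⟨fun hx => h ((K i).add_mem hx (h1 c hc i hi)), hi⟩
  · rintro ⟨h, hi⟩
    refine ⟨fun hx => h ?_, hi⟩
    have := (K i).sub_mem hx (h1 c hc i hi)
    simpa using this

/-- pairwise orthogonal subsets of a nonempty set: at most `|Z|` of them -/
theorem orth_card (Z : Finset ι) (hZ : Z.Nonempty) (F : Finset (Finset ι))
    (hF : ∀ S ∈ F, S ⊆ Z) (ho : ∀ S ∈ F, ∀ T ∈ F, S ≠ T → 2 * (symmDiff S T).card = Z.card) :
    F.card ≤ Z.card := by
  let v : F → EuclideanSpace ℝ Z := fun S => WithLp.toLp 2 (fun j => if (j : ι) ∈ (S : Finset ι) then 1 else -1)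
  have hinner : ∀ S T : F, inner ℝ (v S) (v T)
      = (Z.card : ℝ) - 2 * (symmDiff (S : Finset ι) (T : Finset ι)).card := by
    intro S T
    have h1 : inner ℝ (v S) (v T) = ∑ j : Z, (if (j : ι) ∈ (S : Finset ι) then (1 : ℝ) else -1) *
        (if (j : ι) ∈ (T : Finset ι) then (1 : ℝ) else -1) := by
      rw [PiLp.inner_apply]
      refine Finset.sum_congr rfl fun j _ => ?_
      simp [v, mul_comm]
    rw [h1, Finset.sum_coe_sort Z (fun j => (if j ∈ (S : Finset ι) then (1 : ℝ) else -1) *
        (if j ∈ (T : Finset ι) then (1 : ℝ) else -1))]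
    have h2 : ∀ j ∈ Z, (if j ∈ (S : Finset ι) then (1 : ℝ) else -1) *
        (if j ∈ (T : Finset ι) then (1 : ℝ) else -1)
        = 1 - 2 * (if j ∈ symmDiff (S : Finset ι) (T : Finset ι) then 1 else 0) := by
      intro j _
      by_cases hs : j ∈ (S : Finset ι) <;> by_cases ht : j ∈ (T : Finset ι) <;>
        simp [Finset.mem_symmDiff, hs, ht] <;> norm_num
    rw [Finset.sum_congr rfl h2, Finset.sum_sub_distrib, ← Finset.mul_sum]
    have h3 : Z.filter (fun j => j ∈ symmDiff (S : Finset ι) (T : Finset ι))
        = symmDiff (S : Finset ι) (T : Finset ι) := by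
      ext j
      simp only [mem_filter, and_iff_right_iff_imp, Finset.mem_symmDiff]
      rintro (h | h)
      · exact hF _ S.2 h.1
      · exact hF _ T.2 h.1
    simp only [Finset.sum_const, nsmul_eq_mul, mul_one]
    rw [Finset.sum_boole, h3]
  have hli : LinearIndependent ℝ v := by
    refine linearIndependent_of_ne_zero_of_inner_eq_zero ?_ ?_
    · intro S h0
      have := hinner S S
      rw [h0, inner_zero_left, symmDiff_self] at this
      simp at this
      have h' : Z.card = 0 := by exact_mod_cast this.symm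
      exact hZ.ne_empty (card_eq_zero.1 h')
    · intro S T hST
      rw [hinner S T]
      have := ho S S.2 T T.2 (fun h => hST (Subtype.ext h))
      have h' : (2 : ℝ) * ((symmDiff (S : Finset ι) (T : Finset ι)).card : ℝ) = Z.card := by
        exact_mod_cast this
      linarith
  have := hli.fintype_card_le_finrank
  rw [finrank_euclideanSpace] at this
  simpa using this

end

end Pool.Agent.Q224.Tri
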