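import Pool.Agent.Q224.Tri.A

/-!
The case of a good element with at least four elements supported on its support.
-/

namespace Pool.Agent.Q224.Tri

set_option linter.unusedSectionVars false

open Finset
open scoped Classical

noncomputable section

variable {G : Type} [AddCommGroup G] [Fintype G] {ι : Type} [Fintype ι] {K : ι → AddSubgroup G}

/-- the bad elements: weight at least `3k` -/
def bad (K : ι → AddSubgroup G) (k : ℕ) : Finset G := univ.filter (fun g => 3 * k ≤ wt K g)

/-- the good elements: weight `2k` -/
def good (K : ι → AddSubgroup G) (k : ℕ) : Finset G := univ.filter (fun g => wt K g = 2 * k)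

theorem case_long (k b : ℕ) (hk : 2 ≤ k) (hb : 1 ≤ b)
    (hw : ∀ g : G, g ≠ 0 → wt K g = 2 * k ∨ wt K g = 3 * k ∨ wt K g = 4 * k)
    (hbad : (bad K k).card ≤ 2 * b) (hne : (bad K k).Nonempty)
    (C : AddSubgroup G) (U : Finset ι) (hU : U.card = 2 * k)
    (h1 : ∀ c ∈ C, ∀ i, i ∉ U → c ∈ K i)
    (h2 : ∀ c ∈ C, c ≠ 0 → ∀ i ∈ U, c ∉ K i)
    (h3 : ∀ c, (∀ i, i ∉ U → c ∈ K i) → c ∈ C)
    (hC : 4 ≤ (univ.filter (fun c => c ∈ C)).card) :
    Fintype.card G ≤ 4 * k * (b + 1) := by
  set Cf : Finset G := univ.filter (fun c => c ∈ C) with hCf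
  have hCfm : ∀ c ∈ Cf, c ∈ C := fun c hc => (mem_filter.1 hc).2
  set out : G → ℕ := fun x => (sup K x \ U).card with hout
  have hsplit : ∀ x, wt K x + (U \ sup K x).card = out x + 2 * k := by
    intro x; rw [← hU]; exact wt_split U x
  have hsum : ∀ x, ∑ c ∈ Cf, (U \ sup K (x + c)).card ≤ 2 * k := by
    intro x; rw [← hU]; exact sum_zero_le C U h2 x Cf hCfm
  have houtadd : ∀ x, ∀ c ∈ C, out (x + c) = out x := by
    intro x c hc; simp only [hout]; rw [out_add C U h1 x c hc]
  have hcoset : ∀ x, x ∉ C → ∀ c ∈ C, x + c ≠ 0 := by
    intro x hx c hc h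
    apply hx
    have : x = -c := eq_neg_of_add_eq_zero_left h
    rw [this]; exact C.neg_mem hc
  have hdich : ∀ x, 2 * out x ≤ k ∨ k ≤ out x := by
    intro x
    by_cases hx : x ∈ C
    · left
      have : out x = 0 := by
        simp only [hout]
        rw [card_eq_zero]
        ext i
        simp only [mem_sdiff, mem_sup, notMem_empty, iff_false, not_and, not_not]
        intro h
        by_contra hi
        exact h (h1 x hx i hi)
      omega
    · by_cases hg : ∀ c ∈ Cf, wt K (x + c) = 2 * k
      · left
        have hz : ∀ c ∈ Cf, (U \ sup K (x + c)).card = out x := by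
          intro c hc
          have e1 := hsplit (x + c)
          rw [hg c hc, houtadd x c (hCfm c hc)] at e1
          omega
        have e2 := hsum x
        rw [Finset.sum_congr rfl hz, Finset.sum_const, smul_eq_mul] at e2
        nlinarith
      · right
        push Not at hg
        obtain ⟨c, hc, hcw⟩ := hg
        have e1 := hsplit (x + c)
        rw [houtadd x c (hCfm c hc)] at e1
        rcases hw (x + c) (hcoset x hx c (hCfm c hc)) with h | h | h
        · exact absurd h hcw
        · omega
        · omega
  set R : Finset G := univ.filter (fun x => k ≤ out x) with hR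
  set Q : Finset G := univ.filter (fun x => 2 * out x ≤ k) with hQ
  -- few good elements in the cosets of R
  have hfew : ∀ x ∈ R, (Cf.filter (fun c => wt K (x + c) = 2 * k)).card ≤ 2 := by
    intro x hx
    have hxk : k ≤ out x := (mem_filter.1 hx).2
    by_contra hcon
    push Not at hcon
    have e1 := sum_zero_le C U h2 x (Cf.filter (fun c => wt K (x + c) = 2 * k))
      (fun c hc => hCfm c (mem_filter.1 hc).1)
    have e2 : ∀ c ∈ Cf.filter (fun c => wt K (x + c) = 2 * k), k ≤ (U \ sup K (x + c)).card := by
      intro c hc
      have e3 := hsplit (x + c)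
      rw [(mem_filter.1 hc).2, houtadd x c (hCfm c (mem_filter.1 hc).1)] at e3
      omega
    have e4 := Finset.card_nsmul_le_sum _ _ _ e2
    rw [smul_eq_mul] at e4
    have : 3 * k ≤ 2 * k := calc
      3 * k ≤ (Cf.filter (fun c => wt K (x + c) = 2 * k)).card * k := Nat.mul_le_mul_right _ hcon
      _ ≤ _ := e4
      _ ≤ U.card := e1
      _ = 2 * k := hU
    omega
  have hRnz : ∀ x ∈ R, x ≠ 0 := by
    intro x hx h0
    have hxk : k ≤ out x := (mem_filter.1 hx).2
    have e1 := hsplit x
    rw [h0, wt_zero] at e1
    have e2 : (U \ sup K (0 : G)).card ≤ U.card := card_le_card sdiff_subset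
    rw [h0] at hxk
    omega
  set gR : Finset G := R.filter (fun x => wt K x = 2 * k) with hgR
  have hdc : Cf.card * gR.card ≤ 2 * R.card := by
    have e1 : ∑ x ∈ R, (Cf.filter (fun c => wt K (x + c) = 2 * k)).card ≤ ∑ x ∈ R, 2 :=
      Finset.sum_le_sum hfew
    have e2 : ∑ x ∈ R, (Cf.filter (fun c => wt K (x + c) = 2 * k)).card
        = ∑ c ∈ Cf, (R.filter (fun x => wt K (x + c) = 2 * k)).card := by
      simp_rw [Finset.card_filter]
      exact Finset.sum_comm
    have e3 : ∀ c ∈ Cf, (R.filter (fun x => wt K (x + c) = 2 * k)).card = gR.card := by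
      intro c hc
      refine Finset.card_bij (fun x _ => x + c) ?_ ?_ ?_
      · intro x hx
        rw [mem_filter] at hx
        rw [hgR, mem_filter]
        refine ⟨?_, hx.2⟩
        rw [hR, mem_filter]
        refine ⟨mem_univ _, ?_⟩
        rw [houtadd x c (hCfm c hc)]
        exact (mem_filter.1 hx.1).2
      · intro x _ y _ h
        exact add_right_cancel h
      · intro y hy
        rw [hgR, mem_filter] at hy
        refine ⟨y - c, ?_, by simp⟩
        rw [mem_filter]
        refine ⟨?_, by simpa using hy.2⟩
        rw [hR, mem_filter]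
        refine ⟨mem_univ _, ?_⟩
        have := houtadd (y - c) c (hCfm c hc)
        rw [sub_add_cancel] at this
        rw [← this]
        exact (mem_filter.1 hy.1).2
    rw [e2, Finset.sum_congr rfl e3, Finset.sum_const, smul_eq_mul, Finset.sum_const,
      smul_eq_mul] at e1
    linarith
  have hRbad : R.card ≤ gR.card + (bad K k).card := by
    have : R ⊆ gR ∪ bad K k := by
      intro x hx
      rcases hw x (hRnz x hx) with h | h | h
      · exact mem_union_left _ (mem_filter.2 ⟨hx, h⟩)
      · exact mem_union_right _ (mem_filter.2 ⟨mem_univ _, by omega⟩)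
      · exact mem_union_right _ (mem_filter.2 ⟨mem_univ _, by omega⟩)
    exact (card_le_card this).trans (card_union_le _ _)
  have hR2 : R.card ≤ 2 * (bad K k).card := by
    have : 4 * gR.card ≤ Cf.card * gR.card := Nat.mul_le_mul_right _ hC
    omega
  -- a bad element
  obtain ⟨z, hz⟩ := hne
  have hzk : k ≤ out z := by
    have e1 := hsplit z
    have e2 : 3 * k ≤ wt K z := (mem_filter.1 hz).2
    omega
  have hQR : Q.card + R.card ≥ Fintype.card G := by
    rw [← Finset.card_univ]
    have : (univ : Finset G) ⊆ Q ∪ R := by
      intro x _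
      rcases hdich x with h | h
      · exact mem_union_left _ (mem_filter.2 ⟨mem_univ _, h⟩)
      · exact mem_union_right _ (mem_filter.2 ⟨mem_univ _, h⟩)
    exact (card_le_card this).trans (card_union_le _ _)
  set H : Finset G := Q.filter (fun x => z - x ∈ Q) with hH
  have hQH : Q.card ≤ H.card + R.card := by
    rw [← Finset.card_filter_add_card_filter_not (s := Q) (p := fun x => z - x ∈ Q)]
    refine Nat.add_le_add_left ?_ _
    refine Finset.card_le_card_of_injOn (fun x => z - x) ?_ ?_
    · intro x hx
      have hx' := (mem_filter.1 (mem_coe.1 hx)).2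
      rcases hdich (z - x) with h | h
      · exact absurd (show z - x ∈ Q from mem_filter.2 ⟨mem_univ _, h⟩) hx'
      · exact mem_coe.2 (mem_filter.2 ⟨mem_univ _, h⟩)
    · intro x _ y _ h
      exact sub_right_injective h
  -- the structure of H
  have hHstr : ∀ x ∈ H, 2 * out x = k ∧ 2 * out z = 2 * k ∧ sup K x \ U ⊆ sup K z \ U ∧
      ∀ i ∈ sup K x \ U, z - x ∈ K i := by
    intro x hx
    have hx1 : 2 * out x ≤ k := (mem_filter.1 (mem_filter.1 hx).1).2
    have hx2 : 2 * out (z - x) ≤ k := (mem_filter.1 (mem_filter.1 hx).2).2
    have hsub : sup K z \ U ⊆ (sup K x \ U) ∪ (sup K (z - x) \ U) := by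
      intro i hi
      rw [mem_sdiff, mem_sup] at hi
      by_cases h : x ∈ K i
      · refine mem_union_right _ (mem_sdiff.2 ⟨?_, hi.2⟩)
        rw [mem_sup]
        intro h'
        exact hi.1 (by simpa using (K i).add_mem h' h)
      · exact mem_union_left _ (mem_sdiff.2 ⟨mem_sup.2 h, hi.2⟩)
    have hc1 := card_le_card hsub
    have hc2 := card_union_add_card_inter (sup K x \ U) (sup K (z - x) \ U)
    have hzk' : k ≤ (sup K z \ U).card := hzk
    have hx1' : 2 * (sup K x \ U).card ≤ k := hx1
    have hx2' : 2 * (sup K (z - x) \ U).card ≤ k := hx2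
    have heq : sup K z \ U = (sup K x \ U) ∪ (sup K (z - x) \ U) :=
      eq_of_subset_of_card_le hsub (by omega)
    have hint : ((sup K x \ U) ∩ (sup K (z - x) \ U)).card = 0 := by omega
    refine ⟨?_, ?_, ?_, ?_⟩
    · show 2 * (sup K x \ U).card = k
      omega
    · show 2 * (sup K z \ U).card = 2 * k
      omega
    · rw [heq]; exact subset_union_left
    · intro i hi
      by_contra hcon
      rw [card_eq_zero] at hint
      have : i ∈ (sup K x \ U) ∩ (sup K (z - x) \ U) :=
        mem_inter.2 ⟨hi, mem_sdiff.2 ⟨mem_sup.2 hcon, (mem_sdiff.1 hi).2⟩⟩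
      rw [hint] at this
      exact absurd this (notMem_empty _)
  by_cases hHe : H = ∅
  · rw [hHe, card_empty] at hQH
    have : Fintype.card G ≤ 4 * (2 * b) := by omega
    nlinarith
  · obtain ⟨x0, hx0⟩ := Finset.nonempty_iff_ne_empty.2 hHe
    -- `|C| ≤ 4`
    have hC4 : Cf.card ≤ 4 := by
      obtain ⟨e1, -, -, -⟩ := hHstr x0 hx0
      have hx0C : x0 ∉ C := by
        intro h
        have : out x0 = 0 := by
          simp only [hout]
          rw [card_eq_zero]
          ext i
          simp only [mem_sdiff, mem_sup, notMem_empty, iff_false, not_and, not_not]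
          intro h'
          by_contra hi
          exact h' (h1 x0 h i hi)
        omega
      have hgood : ∀ c ∈ Cf, (U \ sup K (x0 + c)).card = out x0 := by
        intro c hc
        have e3 := hsplit (x0 + c)
        rw [houtadd x0 c (hCfm c hc)] at e3
        rcases hw (x0 + c) (hcoset x0 hx0C c (hCfm c hc)) with h | h | h
        · omega
        · omega
        · omega
      have e2 := hsum x0
      rw [Finset.sum_congr rfl hgood, Finset.sum_const, smul_eq_mul] at e2
      have e4 : Cf.card * (2 * out x0) ≤ 4 * k := by linarith
      rw [e1] at e4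
      exact Nat.le_of_mul_le_mul_right e4 (by omega)
    have hfib : H.card ≤ 4 * (H.image (fun x => sup K x \ U)).card := by
      refine Finset.card_le_mul_card_image _ _ ?_
      intro S hS
      obtain ⟨y, hy, hyS⟩ := mem_image.1 hS
      refine le_trans ?_ hC4
      refine Finset.card_le_card_of_injOn (fun x => x - y) ?_ ?_
      · intro x hx
        have hx' := mem_filter.1 (mem_coe.1 hx)
        refine mem_coe.2 (mem_filter.2 ⟨mem_univ _, ?_⟩)
        apply h3
        intro i hi
        have hxy : sup K x \ U = sup K y \ U := hx'.2.trans hyS.symm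
        by_cases hix : i ∈ sup K x \ U
        · have a1 := (hHstr x hx'.1).2.2.2 i hix
          have a2 := (hHstr y hy).2.2.2 i (hxy ▸ hix)
          have := (K i).sub_mem a2 a1
          have e : x - y = z - y - (z - x) := by abel
          show x - y ∈ K i
          rw [e]; exact this
        · have a1 : x ∈ K i := by
            by_contra h
            exact hix (mem_sdiff.2 ⟨mem_sup.2 h, hi⟩)
          have a2 : y ∈ K i := by
            by_contra h
            exact hix (hxy ▸ mem_sdiff.2 ⟨mem_sup.2 h, hi⟩)
          exact (K i).sub_mem a1 a2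
      · intro x _ x' _ h
        exact sub_left_injective h
    -- the family of supports
    set F := H.image (fun x => sup K x \ U) with hF
    set Z := sup K z \ U with hZdef
    have hZc : Z.card = k := by
      have := (hHstr x0 hx0).2.1
      have h' : 2 * Z.card = 2 * k := this
      omega
    have hZne : Z.Nonempty := by rw [← card_pos]; omega
    have hFZ : ∀ S ∈ F, S ⊆ Z ∧ 2 * S.card = k := by
      intro S hS
      obtain ⟨y, hy, rfl⟩ := mem_image.1 hS
      exact ⟨(hHstr y hy).2.2.1, (hHstr y hy).1⟩
    have hFd : ∀ S ∈ F, ∀ T ∈ F, S ≠ T → (∃ i ∈ Z, (i ∈ S ↔ i ∈ T)) →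
        2 * (symmDiff S T).card = k := by
      intro S hS T hT hST hcomp
      obtain ⟨x, hx, rfl⟩ := mem_image.1 hS
      obtain ⟨y, hy, rfl⟩ := mem_image.1 hT
      obtain ⟨a1, a2, a3, a4⟩ := hHstr x hx
      obtain ⟨b1, b2, b3, b4⟩ := hHstr y hy
      have hs1 : sup K (x - y) \ U = symmDiff (sup K x \ U) (sup K y \ U) := by
        ext i
        rw [Finset.mem_symmDiff]
        constructor
        · intro hi
          have hiU := (mem_sdiff.1 hi).2
          have hin := mem_sup.1 (mem_sdiff.1 hi).1
          by_cases hix : i ∈ sup K x \ U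
          · left
            refine ⟨hix, fun hiy => hin ?_⟩
            have := (K i).sub_mem (b4 i hiy) (a4 i hix)
            have e : x - y = z - y - (z - x) := by abel
            rw [e]; exact this
          · right
            refine ⟨?_, hix⟩
            have hxK : x ∈ K i := by
              by_contra h
              exact hix (mem_sdiff.2 ⟨mem_sup.2 h, hiU⟩)
            refine mem_sdiff.2 ⟨mem_sup.2 fun hyK => hin ((K i).sub_mem hxK hyK), hiU⟩
        · rintro (⟨hix, hiy⟩ | ⟨hiy, hix⟩)
          · have hiU := (mem_sdiff.1 hix).2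
            have hxn := mem_sup.1 (mem_sdiff.1 hix).1
            have hyK : y ∈ K i := by
              by_contra h
              exact hiy (mem_sdiff.2 ⟨mem_sup.2 h, hiU⟩)
            refine mem_sdiff.2 ⟨mem_sup.2 fun h => hxn ?_, hiU⟩
            simpa using (K i).add_mem h hyK
          · have hiU := (mem_sdiff.1 hiy).2
            have hyn := mem_sup.1 (mem_sdiff.1 hiy).1
            have hxK : x ∈ K i := by
              by_contra h
              exact hix (mem_sdiff.2 ⟨mem_sup.2 h, hiU⟩)
            refine mem_sdiff.2 ⟨mem_sup.2 fun h => hyn ?_, hiU⟩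
            have := (K i).sub_mem hxK h
            simpa using this
      have hsubZ : symmDiff (sup K x \ U) (sup K y \ U) ⊆ Z := by
        intro i hi
        rw [Finset.mem_symmDiff] at hi
        rcases hi with h | h
        · exact a3 h.1
        · exact b3 h.1
      have hs2 : sup K (z - x - y) \ U = Z \ symmDiff (sup K x \ U) (sup K y \ U) := by
        ext i
        rw [mem_sdiff (s := Z), Finset.mem_symmDiff]
        constructor
        · intro hi
          have hiU := (mem_sdiff.1 hi).2
          have hin := mem_sup.1 (mem_sdiff.1 hi).1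
          by_cases hix : i ∈ sup K x \ U
          · refine ⟨a3 hix, ?_⟩
            rintro (⟨-, hiy⟩ | ⟨-, h⟩)
            · apply hin
              have hyK : y ∈ K i := by
                by_contra h
                exact hiy (mem_sdiff.2 ⟨mem_sup.2 h, hiU⟩)
              exact (K i).sub_mem (a4 i hix) hyK
            · exact h hix
          · have hxK : x ∈ K i := by
              by_contra h
              exact hix (mem_sdiff.2 ⟨mem_sup.2 h, hiU⟩)
            by_cases hiy : i ∈ sup K y \ U
            · exfalso
              apply hin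
              have := (K i).sub_mem (b4 i hiy) hxK
              have e : z - x - y = z - y - x := by abel
              rw [e]; exact this
            · have hyK : y ∈ K i := by
                by_contra h
                exact hiy (mem_sdiff.2 ⟨mem_sup.2 h, hiU⟩)
              refine ⟨mem_sdiff.2 ⟨mem_sup.2 fun hzK => hin ?_, hiU⟩, ?_⟩
              · exact (K i).sub_mem ((K i).sub_mem hzK hxK) hyK
              · rintro (⟨h, -⟩ | ⟨h, -⟩)
                · exact hix h
                · exact hiy h
        · rintro ⟨hiZ, hn⟩
          have hiU := (mem_sdiff.1 hiZ).2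
          have hzn := mem_sup.1 (mem_sdiff.1 hiZ).1
          refine mem_sdiff.2 ⟨mem_sup.2 fun h => ?_, hiU⟩
          by_cases hix : i ∈ sup K x \ U
          · by_cases hiy : i ∈ sup K y \ U
            · have hyn := mem_sup.1 (mem_sdiff.1 hiy).1
              apply hyn
              have := (K i).sub_mem (a4 i hix) h
              simpa using this
            · exact hn (Or.inl ⟨hix, hiy⟩)
          · by_cases hiy : i ∈ sup K y \ U
            · exact hn (Or.inr ⟨hiy, hix⟩)
            · have hxK : x ∈ K i := by
                by_contra h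
                exact hix (mem_sdiff.2 ⟨mem_sup.2 h, hiU⟩)
              have hyK : y ∈ K i := by
                by_contra h
                exact hiy (mem_sdiff.2 ⟨mem_sup.2 h, hiU⟩)
              apply hzn
              have := (K i).add_mem ((K i).add_mem h hyK) hxK
              have e : z - x - y + y + x = z := by abel
              rw [e] at this; exact this
      have c1 : out (x - y) = (symmDiff (sup K x \ U) (sup K y \ U)).card := by
        simp only [hout]; rw [hs1]
      have c2 : out (z - x - y) = k - (symmDiff (sup K x \ U) (sup K y \ U)).card := by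
        simp only [hout]; rw [hs2, card_sdiff_of_subset hsubZ, hZc]
      have c3 : (symmDiff (sup K x \ U) (sup K y \ U)).card ≤ k := by
        rw [← hZc]; exact card_le_card hsubZ
      have c4 : (symmDiff (sup K x \ U) (sup K y \ U)).card ≠ 0 := by
        rw [Ne, card_eq_zero]
        intro h
        exact hST (symmDiff_eq_bot.1 h)
      have c5 : (symmDiff (sup K x \ U) (sup K y \ U)).card ≠ k := by
        intro h
        have : symmDiff (sup K x \ U) (sup K y \ U) = Z :=
          eq_of_subset_of_card_le hsubZ (by omega)
        obtain ⟨i, hiZ, hi⟩ := hcomp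
        rw [← this, Finset.mem_symmDiff] at hiZ
        tauto
      rcases hdich (x - y) with h | h <;> rcases hdich (z - x - y) with h' | h'
      · show 2 * (symmDiff (sup K x \ U) (sup K y \ U)).card = k
        omega
      · omega
      · omega
      · omega
    obtain ⟨i0, hi0⟩ := hZne
    have hhalf : ∀ (P : Finset ι → Prop) [DecidablePred P],
        (∀ S ∈ F.filter P, ∀ T ∈ F.filter P, (i0 ∈ S ↔ i0 ∈ T)) →
        (F.filter P).card + 1 ≤ k := by
      intro P _ hP
      have hZF : Z ∉ F.filter P := by
        intro h
        have := (hFZ Z (mem_filter.1 h).1).2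
        omega
      rw [← card_insert_of_notMem hZF, ← hZc]
      refine orth_card Z ⟨i0, hi0⟩ _ ?_ ?_
      · intro S hS
        rcases mem_insert.1 hS with rfl | h
        · exact Subset.refl _
        · exact (hFZ S (mem_filter.1 h).1).1
      · have hZS : ∀ S ∈ F, 2 * (symmDiff Z S).card = Z.card := by
          intro S hS
          obtain ⟨s1, s2⟩ := hFZ S hS
          have : symmDiff Z S = Z \ S := by
            rw [symmDiff_def]
            have : S \ Z = ∅ := sdiff_eq_empty_iff_subset.2 s1
            rw [this]; simp
          rw [this, card_sdiff_of_subset s1]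
          omega
        intro S hS T hT hST
        rcases mem_insert.1 hS with rfl | hS'
        · rcases mem_insert.1 hT with rfl | hT'
          · exact absurd rfl hST
          · exact hZS T (mem_filter.1 hT').1
        · rcases mem_insert.1 hT with rfl | hT'
          · rw [symmDiff_comm]; exact hZS S (mem_filter.1 hS').1
          · rw [hZc]
            exact hFd S (mem_filter.1 hS').1 T (mem_filter.1 hT').1 hST
              ⟨i0, hi0, hP S hS' T hT'⟩
    have hF2 : F.card + 2 ≤ 2 * k := by
      have e1 := hhalf (fun S => i0 ∈ S) (by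
        intro S hS T hT
        exact ⟨fun _ => (mem_filter.1 hT).2, fun _ => (mem_filter.1 hS).2⟩)
      have e2 := hhalf (fun S => ¬ i0 ∈ S) (by
        intro S hS T hT
        exact ⟨fun h => absurd h (mem_filter.1 hS).2, fun h => absurd h (mem_filter.1 hT).2⟩)
      have e3 := Finset.card_filter_add_card_filter_not (s := F) (p := fun S => i0 ∈ S)
      omega
    have hfin : Fintype.card G ≤ 4 * (2 * k - 2) + 4 * (2 * b) := by omega
    obtain ⟨k', rfl⟩ : ∃ k', k = k' + 2 := ⟨k - 2, by omega⟩
    obtain ⟨b', rfl⟩ : ∃ b', b = b' + 1 := ⟨b - 1, by omega⟩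
    have e5 : 2 * (k' + 2) - 2 = 2 * k' + 2 := by omega
    rw [e5] at hfin
    nlinarith [Nat.zero_le (k' * b')]

end

end Pool.Agent.Q224.Tri
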