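import Pool.Agent.Q224.Tri.B

/-!
Moments of the weights in groups of exponent two and three.
-/

namespace Pool.Agent.Q224.Tri

set_option linter.unusedSectionVars false

open Finset
open scoped Classical

noncomputable section

variable {G : Type} [AddCommGroup G] [Fintype G] {ι : Type} [Fintype ι] {K : ι → AddSubgroup G}

/-- the number of the elements outside `K i` -/
def N (K : ι → AddSubgroup G) (i : ι) : ℕ := (univ.filter (fun g => g ∉ K i)).card

/-- the number of the elements outside `K i` and `K j` -/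
def M (K : ι → AddSubgroup G) (i j : ι) : ℕ := (univ.filter (fun g => g ∉ K i ∧ g ∉ K j)).card

theorem sum_wt : ∑ g : G, wt K g = ∑ i : ι, N K i := by
  simp_rw [wt, sup, N, Finset.card_filter]; exact Finset.sum_comm

theorem sum_wt_sq : ∑ g : G, (wt K g) ^ 2 = ∑ i : ι, ∑ j : ι, M K i j := by
  have h1 : ∀ g : G, (wt K g) ^ 2 = ∑ i : ι, ∑ j : ι, if g ∉ K i ∧ g ∉ K j then 1 else 0 := by
    intro g
    rw [wt, sup, Finset.card_filter, sq, Finset.sum_mul_sum]
    refine Finset.sum_congr rfl fun i _ => Finset.sum_congr rfl fun j _ => ?_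
    by_cases h1 : g ∈ K i <;> by_cases h2 : g ∈ K j <;> simp [h1, h2]
  simp_rw [h1, M, Finset.card_filter]
  rw [Finset.sum_comm]
  exact Finset.sum_congr rfl fun i _ => Finset.sum_comm

theorem card_filter_mem (H : AddSubgroup G) : (univ.filter (fun g => g ∈ H)).card = Nat.card H := by
  rw [Nat.card_eq_fintype_card, Fintype.card_subtype]

theorem N_add (i : ι) : N K i + Nat.card (K i) = Fintype.card G := by
  rw [N, ← card_filter_mem, ← Finset.card_univ,
    ← Finset.card_filter_add_card_filter_not (s := univ) (p := fun g => g ∈ K i)]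
  ring

theorem M_add (i j : ι) : M K i j + Nat.card (K i) + Nat.card (K j)
    = Fintype.card G + Nat.card (K i ⊓ K j : AddSubgroup G) := by
  rw [M, ← card_filter_mem, ← card_filter_mem, ← card_filter_mem, ← Finset.card_univ]
  simp_rw [Finset.card_filter, ← Finset.sum_add_distrib, Finset.card_eq_sum_ones]
  rw [← Finset.sum_add_distrib]
  refine Finset.sum_congr rfl fun g _ => ?_
  by_cases h1 : g ∈ K i <;> by_cases h2 : g ∈ K j <;> simp [h1, h2, AddSubgroup.mem_inf]

theorem inf_card (p : ℕ) (i j : ι) (hi : Fintype.card G = p * Nat.card (K i))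
    (hj : Fintype.card G = p * Nat.card (K j)) :
    Fintype.card G ≤ p * p * Nat.card (K i ⊓ K j : AddSubgroup G) := by
  have h1 := AddSubgroup.card_mul_index (K i)
  have h2 := AddSubgroup.card_mul_index (K j)
  have h3 := AddSubgroup.card_mul_index (K i ⊓ K j)
  have h4 := AddSubgroup.index_inf_le (H := K i) (K := K j)
  rw [Nat.card_eq_fintype_card (α := G)] at h1 h2 h3
  have hpos : ∀ i, 0 < Nat.card (K i) := fun i => Nat.card_pos
  have e1 : (K i).index = p := by
    have : Nat.card (K i) * (K i).index = Nat.card (K i) * p := by rw [h1, hi]; ring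
    exact Nat.eq_of_mul_eq_mul_left (hpos i) this
  have e2 : (K j).index = p := by
    have : Nat.card (K j) * (K j).index = Nat.card (K j) * p := by rw [h2, hj]; ring
    exact Nat.eq_of_mul_eq_mul_left (hpos j) this
  rw [e1, e2] at h4
  calc Fintype.card G = Nat.card (K i ⊓ K j : AddSubgroup G) * (K i ⊓ K j).index := h3.symm
    _ ≤ Nat.card (K i ⊓ K j : AddSubgroup G) * (p * p) := Nat.mul_le_mul_left _ h4
    _ = _ := by ring

/-- exponent two: proper `K i` have index two -/
theorem card_two (i : ι) (h : ∀ x y, x ∉ K i → y ∉ K i → x - y ∈ K i) (hi : K i ≠ ⊤) :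
    N K i = Nat.card (K i) := by
  obtain ⟨x0, hx0⟩ : ∃ x, x ∉ K i := by
    by_contra hcon
    push Not at hcon
    exact hi (eq_top_iff.2 fun x _ => hcon x)
  rw [N, ← card_filter_mem]
  refine Finset.card_bij (fun x _ => x - x0) ?_ ?_ ?_
  · intro x hx
    exact mem_filter.2 ⟨mem_univ _, h x x0 (mem_filter.1 hx).2 hx0⟩
  · intro x _ y _ hxy
    exact sub_left_injective hxy
  · intro y hy
    refine ⟨y + x0, mem_filter.2 ⟨mem_univ _, fun hc => hx0 ?_⟩, by simp⟩
    have := (K i).sub_mem hc (mem_filter.1 hy).2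
    simpa using this

/-- exponent three: proper `K i` have index three -/
theorem card_three (i : ι) (h3 : ∀ x : G, x + x + x = 0)
    (h : ∀ x y, x ∉ K i → y ∉ K i → x - y ∈ K i ∨ x + y ∈ K i) (hi : K i ≠ ⊤) :
    N K i = 2 * Nat.card (K i) := by
  obtain ⟨x0, hx0⟩ : ∃ x, x ∉ K i := by
    by_contra hcon
    push Not at hcon
    exact hi (eq_top_iff.2 fun x _ => hcon x)
  have hs : (univ.filter (fun g => g ∉ K i))
      = univ.filter (fun g => g - x0 ∈ K i) ∪ univ.filter (fun g => g + x0 ∈ K i) := by
    ext g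
    simp only [mem_filter, mem_univ, true_and, mem_union]
    constructor
    · intro hg
      exact h g x0 hg hx0
    · rintro (hg | hg) hg'
      · apply hx0
        have := (K i).sub_mem hg' hg
        simpa using this
      · apply hx0
        have := (K i).sub_mem hg hg'
        simpa using this
  have hd : Disjoint (univ.filter (fun g => g - x0 ∈ K i)) (univ.filter (fun g => g + x0 ∈ K i)) := by
    rw [Finset.disjoint_left]
    intro g h1 h2
    have a1 := (mem_filter.1 h1).2
    have a2 := (mem_filter.1 h2).2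
    have a3 := (K i).sub_mem a2 a1
    apply hx0
    have e : x0 = -(g + x0 - (g - x0)) := by
      have := h3 x0
      have e1 : g + x0 - (g - x0) = x0 + x0 := by abel
      rw [e1]
      exact (eq_neg_iff_add_eq_zero.2 (by rw [← this]; abel))
    rw [e]
    exact (K i).neg_mem a3
  have c1 : (univ.filter (fun g => g - x0 ∈ K i)).card = Nat.card (K i) := by
    rw [← card_filter_mem]
    refine Finset.card_bij (fun x _ => x - x0) ?_ ?_ ?_
    · intro x hx
      exact mem_filter.2 ⟨mem_univ _, (mem_filter.1 hx).2⟩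
    · intro x _ y _ hxy
      exact sub_left_injective hxy
    · intro y hy
      exact ⟨y + x0, mem_filter.2 ⟨mem_univ _, by simpa using (mem_filter.1 hy).2⟩, by simp⟩
  have c2 : (univ.filter (fun g => g + x0 ∈ K i)).card = Nat.card (K i) := by
    rw [← card_filter_mem]
    refine Finset.card_bij (fun x _ => x + x0) ?_ ?_ ?_
    · intro x hx
      exact mem_filter.2 ⟨mem_univ _, (mem_filter.1 hx).2⟩
    · intro x _ y _ hxy
      exact add_left_injective _ hxy
    · intro y hy
      exact ⟨y - x0, mem_filter.2 ⟨mem_univ _, by simpa using (mem_filter.1 hy).2⟩, by simp⟩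
  rw [N, hs, card_union_of_disjoint hd, c1, c2]
  ring

/-- the number of elements of weight `m` -/
def cnt (K : ι → AddSubgroup G) (m : ℕ) : ℕ := (univ.filter (fun g => wt K g = m)).card

theorem sums (k : ℕ) (hk : 2 ≤ k)
    (hw : ∀ g : G, g ≠ 0 → wt K g = 2 * k ∨ wt K g = 3 * k ∨ wt K g = 4 * k) :
    Fintype.card G = 1 + cnt K (2 * k) + cnt K (3 * k) + cnt K (4 * k) ∧
    ∑ g : G, wt K g = 2 * k * cnt K (2 * k) + 3 * k * cnt K (3 * k) + 4 * k * cnt K (4 * k) ∧
    ∑ g : G, (wt K g) ^ 2 = 4 * k ^ 2 * cnt K (2 * k) + 9 * k ^ 2 * cnt K (3 * k)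
      + 16 * k ^ 2 * cnt K (4 * k) := by
  have key : ∀ f : ℕ → ℕ, f 0 = 0 → ∑ g : G, f (wt K g)
      = f (2 * k) * cnt K (2 * k) + f (3 * k) * cnt K (3 * k) + f (4 * k) * cnt K (4 * k) := by
    intro f hf
    simp_rw [cnt, Finset.card_filter, Finset.mul_sum, ← Finset.sum_add_distrib]
    refine Finset.sum_congr rfl fun g _ => ?_
    by_cases h0 : g = 0
    · subst h0
      rw [wt_zero, hf]
      have e1 : ¬ (0 = 2 * k) := by omega
      have e2 : ¬ (0 = 3 * k) := by omega
      have e3 : ¬ (0 = 4 * k) := by omega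
      simp [e1, e2, e3]
    · rcases hw g h0 with h | h | h
      · have e2 : ¬ (2 * k = 3 * k) := by omega
        have e3 : ¬ (2 * k = 4 * k) := by omega
        rw [h, if_pos rfl, if_neg e2, if_neg e3]; ring
      · have e2 : ¬ (3 * k = 2 * k) := by omega
        have e3 : ¬ (3 * k = 4 * k) := by omega
        rw [h, if_pos rfl, if_neg e2, if_neg e3]; ring
      · have e2 : ¬ (4 * k = 2 * k) := by omega
        have e3 : ¬ (4 * k = 3 * k) := by omega
        rw [h, if_pos rfl, if_neg e2, if_neg e3]; ring
  refine ⟨?_, ?_, ?_⟩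
  · have h1 := key (fun m => if m = 0 then 0 else 1) (by simp)
    have e1 : ¬ (2 * k = 0) := by omega
    have e2 : ¬ (3 * k = 0) := by omega
    have e3 : ¬ (4 * k = 0) := by omega
    simp only [if_neg e1, if_neg e2, if_neg e3, one_mul] at h1
    have h2 : ∑ g : G, (if wt K g = 0 then 0 else 1) + 1 = Fintype.card G := by
      have h3 : ∑ g : G, (if wt K g = 0 then 0 else 1) + ∑ g : G, (if g = 0 then 1 else 0)
          = Fintype.card G := by
        rw [← Finset.sum_add_distrib, ← Finset.card_univ, Finset.card_eq_sum_ones]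
        refine Finset.sum_congr rfl fun g _ => ?_
        by_cases h0 : g = 0
        · subst h0; simp [wt_zero]
        · have : wt K g ≠ 0 := by rcases hw g h0 with h | h | h <;> omega
          simp [h0, this]
      simpa using h3
    omega
  · exact key (fun m => m) rfl
  · have := key (fun m => m ^ 2) (by norm_num)
    rw [this]; ring

end

end Pool.Agent.Q224.Tri
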