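import Pool.Agent.Q224.Tri.C

/-!
The bound `|G| ≤ 4k(b+1)`.
-/

namespace Pool.Agent.Q224.Tri

set_option linter.unusedSectionVars false

open Finset
open scoped Classical

noncomputable section

variable {G : Type} [AddCommGroup G] [Fintype G] {ι : Type} [Fintype ι] {K : ι → AddSubgroup G}

theorem N_top (i : ι) (h : K i = ⊤) : N K i = 0 := by
  rw [N, card_eq_zero]
  ext g
  simp [h]

theorem exp_two (k b : ℕ) (hk : 2 ≤ k) (hb : 1 ≤ b)
    (hw : ∀ g : G, g ≠ 0 → wt K g = 2 * k ∨ wt K g = 3 * k ∨ wt K g = 4 * k)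
    (hA : cnt K (3 * k) = 0) (hB : cnt K (4 * k) = b)
    (h : ∀ i x y, x ∉ K i → y ∉ K i → x - y ∈ K i) :
    Fintype.card G ≤ 4 * k * (b + 1) := by
  obtain ⟨s0, s1, s2⟩ := sums (K := K) k hk hw
  rw [hA, hB] at s0 s1 s2
  set I : Finset ι := univ.filter (fun i => K i ≠ ⊤) with hI
  obtain ⟨i0, hi0⟩ : I.Nonempty := by
    have : 0 < cnt K (4 * k) := by omega
    obtain ⟨g, hg⟩ := card_pos.1 this
    have hg' : wt K g = 4 * k := (mem_filter.1 hg).2
    have : 0 < (sup K g).card := by
      have : wt K g = (sup K g).card := rfl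
      omega
    obtain ⟨i, hi⟩ := card_pos.1 this
    refine ⟨i, mem_filter.2 ⟨mem_univ _, fun htop => ?_⟩⟩
    rw [mem_sup, htop] at hi
    exact hi (AddSubgroup.mem_top g)
  set u := Nat.card (K i0) with hu
  have hI' : ∀ i ∈ I, N K i = Nat.card (K i) := fun i hi =>
    card_two i (h i) (mem_filter.1 hi).2
  have hV : Fintype.card G = 2 * u := by
    have := N_add (K := K) i0
    rw [hI' i0 hi0] at this
    omega
  have hIu : ∀ i ∈ I, Nat.card (K i) = u := by
    intro i hi
    have := N_add (K := K) i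
    rw [hI' i hi] at this
    omega
  have hIN : ∀ i ∈ I, N K i = u := fun i hi => by rw [hI' i hi, hIu i hi]
  set n := I.card with hn
  have m1 : ∑ g : G, wt K g = n * u := by
    rw [sum_wt]
    have : ∀ i, N K i = if K i ≠ ⊤ then u else 0 := by
      intro i
      by_cases hi : K i = ⊤
      · rw [N_top i hi, if_neg (by simpa using hi)]
      · rw [if_pos hi, hIN i (mem_filter.2 ⟨mem_univ _, hi⟩)]
    rw [Finset.sum_congr rfl fun i _ => this i, ← Finset.sum_filter, Finset.sum_const, smul_eq_mul]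
  have m2 : n * n * u + n * u ≤ 2 * ∑ g : G, (wt K g) ^ 2 := by
    rw [sum_wt_sq]
    have e1 : ∑ i ∈ I, ∑ j ∈ I, M K i j ≤ ∑ i : ι, ∑ j : ι, M K i j := by
      refine le_trans (Finset.sum_le_sum fun i _ => Finset.sum_le_sum_of_subset (subset_univ I)) ?_
      exact Finset.sum_le_sum_of_subset (subset_univ I)
    have e2 : ∑ i ∈ I, ∑ j ∈ I, (u + if i = j then u else 0) ≤ 2 * ∑ i ∈ I, ∑ j ∈ I, M K i j := by
      rw [Finset.mul_sum]
      refine Finset.sum_le_sum fun i hi => ?_
      rw [Finset.mul_sum]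
      refine Finset.sum_le_sum fun j hj => ?_
      by_cases hij : i = j
      · subst hij
        have : M K i i = N K i := by simp [M, N]
        rw [this, hIN i hi, if_pos rfl]
        omega
      · rw [if_neg hij]
        have a1 := M_add (K := K) i j
        have a2 := inf_card (K := K) 2 i j (by rw [hIu i hi]; exact hV) (by rw [hIu j hj]; exact hV)
        rw [hIu i hi, hIu j hj] at a1
        omega
    have e3 : ∑ i ∈ I, ∑ j ∈ I, (u + if i = j then u else 0) = n * n * u + n * u := by
      have : ∀ i ∈ I, ∑ j ∈ I, (u + if i = j then u else 0) = n * u + u := by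
        intro i hi
        rw [Finset.sum_add_distrib, Finset.sum_const, smul_eq_mul, Finset.sum_ite_eq, if_pos hi]
      rw [Finset.sum_congr rfl this, Finset.sum_const, smul_eq_mul]
      ring
    omega
  rw [s1] at m1
  rw [s2] at m2
  -- arithmetic
  have hupos : 0 < u := by rw [hu]; exact Nat.card_pos
  set c := cnt K (2 * k) with hc
  by_contra hcon
  push Not at hcon
  rw [hV] at s0 hcon
  zify at *
  have hcv : (c : ℤ) = 2 * u - 1 - b := by linarith
  have f1 : (n : ℤ) * u = 2 * k * (2 * u - 1 + b) := by rw [← m1, hcv]; ring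
  have f2 : ((n : ℤ) * n * u + n * u) ≤ 8 * k ^ 2 * (2 * u - 1 + 3 * b) := by
    have : (2 : ℤ) * (4 * k ^ 2 * c + 9 * k ^ 2 * 0 + 16 * k ^ 2 * b)
        = 8 * k ^ 2 * (2 * u - 1 + 3 * b) := by rw [hcv]; ring
    linarith
  have f3 : ((n : ℤ) * u) * (n * u) + u * (n * u) ≤ u * (8 * k ^ 2 * (2 * u - 1 + 3 * b)) := by
    have := mul_le_mul_of_nonneg_left f2 (le_of_lt (show (0 : ℤ) < u by exact_mod_cast hupos))
    nlinarith
  rw [f1] at f3
  have hkpos : (0 : ℤ) < k := by linarith
  -- divide by 2k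
  have f4 : 2 * (k : ℤ) * (2 * u - 1 + b) ^ 2 + u * (2 * u - 1 + b)
      ≤ u * (4 * k * (2 * u - 1 + 3 * b)) := by
    have : (2 * (k : ℤ)) * (2 * k * (2 * u - 1 + b) ^ 2 + u * (2 * u - 1 + b))
        ≤ (2 * k) * (u * (4 * k * (2 * u - 1 + 3 * b))) := by nlinarith
    exact le_of_mul_le_mul_left this (by linarith)
  have f5 : (u : ℤ) * (2 * u) ≤ 4 * k * (b + 1) * u := by
    nlinarith [mul_nonneg (show (0 : ℤ) ≤ u by linarith) (show (0 : ℤ) ≤ b - 1 by linarith),
      mul_nonneg hkpos.le (sq_nonneg ((b : ℤ) - 1))]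
  have f6 : (2 * u : ℤ) ≤ 4 * k * (b + 1) := by
    have : (u : ℤ) * (2 * u) ≤ u * (4 * k * (b + 1)) := by linarith
    exact le_of_mul_le_mul_left this (by exact_mod_cast hupos)
  linarith

theorem exp_three (k b : ℕ) (hk : 2 ≤ k) (hb : 2 ≤ b) (h3 : ∀ x : G, x + x + x = 0)
    (hw : ∀ g : G, g ≠ 0 → wt K g = 2 * k ∨ wt K g = 3 * k ∨ wt K g = 4 * k)
    (hA : cnt K (3 * k) = 2 * b) (hB : cnt K (4 * k) = 0)
    (h : ∀ i x y, x ∉ K i → y ∉ K i → x - y ∈ K i ∨ x + y ∈ K i) :
    Fintype.card G ≤ 4 * k * (b + 1) := by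
  obtain ⟨s0, s1, s2⟩ := sums (K := K) k hk hw
  rw [hA, hB] at s0 s1 s2
  set I : Finset ι := univ.filter (fun i => K i ≠ ⊤) with hI
  obtain ⟨i0, hi0⟩ : I.Nonempty := by
    have : 0 < cnt K (3 * k) := by omega
    obtain ⟨g, hg⟩ := card_pos.1 this
    have hg' : wt K g = 3 * k := (mem_filter.1 hg).2
    have : 0 < (sup K g).card := by
      have : wt K g = (sup K g).card := rfl
      omega
    obtain ⟨i, hi⟩ := card_pos.1 this
    refine ⟨i, mem_filter.2 ⟨mem_univ _, fun htop => ?_⟩⟩
    rw [mem_sup, htop] at hi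
    exact hi (AddSubgroup.mem_top g)
  set u := Nat.card (K i0) with hu
  have hI' : ∀ i ∈ I, N K i = 2 * Nat.card (K i) := fun i hi =>
    card_three i h3 (h i) (mem_filter.1 hi).2
  have hV : Fintype.card G = 3 * u := by
    have := N_add (K := K) i0
    rw [hI' i0 hi0] at this
    omega
  have hIu : ∀ i ∈ I, Nat.card (K i) = u := by
    intro i hi
    have := N_add (K := K) i
    rw [hI' i hi] at this
    omega
  have hIN : ∀ i ∈ I, N K i = 2 * u := fun i hi => by rw [hI' i hi, hIu i hi]
  set n := I.card with hn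
  have m1 : ∑ g : G, wt K g = n * (2 * u) := by
    rw [sum_wt]
    have : ∀ i, N K i = if K i ≠ ⊤ then 2 * u else 0 := by
      intro i
      by_cases hi : K i = ⊤
      · rw [N_top i hi, if_neg (by simpa using hi)]
      · rw [if_pos hi, hIN i (mem_filter.2 ⟨mem_univ _, hi⟩)]
    rw [Finset.sum_congr rfl fun i _ => this i, ← Finset.sum_filter, Finset.sum_const, smul_eq_mul]
  have m2 : 4 * n * n * u + 2 * n * u ≤ 3 * ∑ g : G, (wt K g) ^ 2 := by
    rw [sum_wt_sq]
    have e1 : ∑ i ∈ I, ∑ j ∈ I, M K i j ≤ ∑ i : ι, ∑ j : ι, M K i j := by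
      refine le_trans (Finset.sum_le_sum fun i _ => Finset.sum_le_sum_of_subset (subset_univ I)) ?_
      exact Finset.sum_le_sum_of_subset (subset_univ I)
    have e2 : ∑ i ∈ I, ∑ j ∈ I, (4 * u + if i = j then 2 * u else 0)
        ≤ 3 * ∑ i ∈ I, ∑ j ∈ I, M K i j := by
      rw [Finset.mul_sum]
      refine Finset.sum_le_sum fun i hi => ?_
      rw [Finset.mul_sum]
      refine Finset.sum_le_sum fun j hj => ?_
      by_cases hij : i = j
      · subst hij
        have : M K i i = N K i := by simp [M, N]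
        rw [this, hIN i hi, if_pos rfl]
        omega
      · rw [if_neg hij]
        have a1 := M_add (K := K) i j
        have a2 := inf_card (K := K) 3 i j (by rw [hIu i hi]; exact hV) (by rw [hIu j hj]; exact hV)
        rw [hIu i hi, hIu j hj] at a1
        omega
    have e3 : ∑ i ∈ I, ∑ j ∈ I, (4 * u + if i = j then 2 * u else 0)
        = 4 * n * n * u + 2 * n * u := by
      have : ∀ i ∈ I, ∑ j ∈ I, (4 * u + if i = j then 2 * u else 0) = n * (4 * u) + 2 * u := by
        intro i hi
        rw [Finset.sum_add_distrib, Finset.sum_const, smul_eq_mul, Finset.sum_ite_eq, if_pos hi]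
      rw [Finset.sum_congr rfl this, Finset.sum_const, smul_eq_mul]
      ring
    omega
  rw [s1] at m1
  rw [s2] at m2
  have hupos : 0 < u := by rw [hu]; exact Nat.card_pos
  set c := cnt K (2 * k) with hc
  by_contra hcon
  push Not at hcon
  rw [hV] at s0 hcon
  zify at *
  have hkpos : (0 : ℤ) < k := by linarith
  have hcv : (c : ℤ) = 3 * u - 1 - 2 * b := by linarith
  have f1 : (n : ℤ) * u = k * (3 * u - 1 + b) := by
    have : 2 * ((n : ℤ) * u) = 2 * (k * (3 * u - 1 + b)) := by
      have e : (n : ℤ) * (2 * u) = 2 * k * c + 3 * k * (2 * b) + 4 * k * 0 := m1.symm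
      rw [hcv] at e
      linarith
    linarith
  have f2 : (4 * (n : ℤ) * n * u + 2 * n * u) ≤ 3 * k ^ 2 * (12 * u - 4 + 10 * b) := by
    have : (3 : ℤ) * (4 * k ^ 2 * c + 9 * k ^ 2 * (2 * b) + 16 * k ^ 2 * 0)
        = 3 * k ^ 2 * (12 * u - 4 + 10 * b) := by rw [hcv]; ring
    linarith
  have f3 : 4 * (((n : ℤ) * u) * (n * u)) + 2 * (u * (n * u))
      ≤ u * (3 * k ^ 2 * (12 * u - 4 + 10 * b)) := by
    have := mul_le_mul_of_nonneg_left f2 (le_of_lt (show (0 : ℤ) < u by exact_mod_cast hupos))
    nlinarith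
  rw [f1] at f3
  have f4 : 4 * (k : ℤ) * (3 * u - 1 + b) ^ 2 + 2 * u * (3 * u - 1 + b)
      ≤ u * (3 * k * (12 * u - 4 + 10 * b)) := by
    have : (k : ℤ) * (4 * k * (3 * u - 1 + b) ^ 2 + 2 * u * (3 * u - 1 + b))
        ≤ k * (u * (3 * k * (12 * u - 4 + 10 * b))) := by nlinarith
    exact le_of_mul_le_mul_left this hkpos
  -- 2u(3u - 1 + b) ≤ 6 k u (b+2) - 4k(b-1)^2
  have f5 : (u : ℤ) * (3 * u - 1 + b) ≤ u * (3 * k * (b + 2)) := by
    nlinarith [mul_nonneg hkpos.le (sq_nonneg ((b : ℤ) - 1))]
  have f6 : (3 * u - 1 + b : ℤ) ≤ 3 * k * (b + 2) :=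
    le_of_mul_le_mul_left f5 (by exact_mod_cast hupos)
  nlinarith [mul_nonneg hkpos.le (show (0 : ℤ) ≤ b - 2 by linarith)]

/-- the elements supported on `U` -/
def Csub (K : ι → AddSubgroup G) (U : Finset ι) : AddSubgroup G := ⨅ i : {i // i ∉ U}, K i

theorem mem_Csub {U : Finset ι} {c : G} : c ∈ Csub K U ↔ ∀ i, i ∉ U → c ∈ K i := by
  simp [Csub, AddSubgroup.mem_iInf]

theorem Csub_two (k : ℕ) (hw : ∀ g : G, g ≠ 0 → wt K g = 2 * k ∨ wt K g = 3 * k ∨ wt K g = 4 * k)
    (g : G) (hg : wt K g = 2 * k) :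
    ∀ c ∈ Csub K (sup K g), c ≠ 0 → ∀ i ∈ sup K g, c ∉ K i := by
  intro c hc h0 i hi
  rw [mem_Csub] at hc
  have hsub : sup K c ⊆ sup K g := by
    intro j hj
    by_contra hcon
    exact (mem_sup.1 hj) (hc j hcon)
  have : sup K c = sup K g := by
    refine eq_of_subset_of_card_le hsub ?_
    have e1 : wt K c = (sup K c).card := rfl
    have e2 : wt K g = (sup K g).card := rfl
    rcases hw c h0 with h | h | h <;> omega
  rw [← this] at hi
  exact mem_sup.1 hi

theorem self_mem_Csub (g : G) : g ∈ Csub K (sup K g) := by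
  rw [mem_Csub]
  intro i hi
  by_contra h
  exact hi (mem_sup.2 h)

theorem univ_le (k : ℕ)
    (hw : ∀ g : G, g ≠ 0 → wt K g = 2 * k ∨ wt K g = 3 * k ∨ wt K g = 4 * k) :
    Fintype.card G ≤ 1 + (good K k).card + (bad K k).card := by
  have : (univ : Finset G) ⊆ ({0} ∪ good K k) ∪ bad K k := by
    intro x _
    by_cases h0 : x = 0
    · exact mem_union_left _ (mem_union_left _ (mem_singleton.2 h0))
    · rcases hw x h0 with h | h | h
      · exact mem_union_left _ (mem_union_right _ (mem_filter.2 ⟨mem_univ _, h⟩))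
      · exact mem_union_right _ (mem_filter.2 ⟨mem_univ _, by omega⟩)
      · exact mem_union_right _ (mem_filter.2 ⟨mem_univ _, by omega⟩)
  have h1 := card_le_card this
  have h2 := card_union_le ({0} ∪ good K k) (bad K k)
  have h3 := card_union_le ({0} : Finset G) (good K k)
  rw [card_singleton] at h3
  rw [← Finset.card_univ]
  omega

theorem exp_three_four (k b : ℕ) (hk : 2 ≤ k) (hb : 2 ≤ b) (h3 : ∀ x : G, x + x + x = 0)
    (hw : ∀ g : G, g ≠ 0 → wt K g = 2 * k ∨ wt K g = 3 * k ∨ wt K g = 4 * k)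
    (hbad : (bad K k).card ≤ 2 * b) (z : G) (hz : wt K z = 4 * k) :
    Fintype.card G ≤ 4 * k * (b + 1) := by
  have hnot : ∀ g ∈ good K k, ¬ (wt K (z + g) = 2 * k ∧ wt K (z + -g) = 2 * k) := by
    rintro g hg ⟨h1, h2⟩
    have hg' : wt K g = 2 * k := (mem_filter.1 hg).2
    have hU : (sup K g).card = 2 * k := hg'
    have hg0 : g ≠ 0 := by
      rintro rfl
      rw [wt_zero] at hg'
      omega
    have hne : g ≠ -g := by
      intro h
      apply hg0
      have e : g + g = 0 := by nth_rewrite 2 [h]; simp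
      have := h3 g
      rw [e, zero_add] at this
      exact this
    have e1 := sum_zero_le (Csub K (sup K g)) (sup K g) (Csub_two k hw g hg') z {g, -g} (by
      intro c hc
      rw [mem_insert, mem_singleton] at hc
      rcases hc with rfl | rfl
      · exact self_mem_Csub c
      · exact (Csub K (sup K g)).neg_mem (self_mem_Csub g))
    rw [Finset.sum_pair hne, hU] at e1
    have a0 := wt_split (K := K) (sup K g) z
    have a1 := wt_split (K := K) (sup K g) (z + g)
    have a2 := wt_split (K := K) (sup K g) (z + -g)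
    rw [out_add (Csub K (sup K g)) (sup K g) (fun c hc i hi => mem_Csub.1 hc i hi) z g
      (self_mem_Csub g)] at a1
    rw [out_add (Csub K (sup K g)) (sup K g) (fun c hc i hi => mem_Csub.1 hc i hi) z (-g)
      ((Csub K (sup K g)).neg_mem (self_mem_Csub g))] at a2
    rw [h1, hU] at a1
    rw [h2, hU] at a2
    rw [hz, hU] at a0
    omega
  set A1 : Finset G := (good K k).filter (fun g => z + g ∈ bad K k) with hA1
  set A2 : Finset G := (good K k).filter (fun g => z + -g ∈ bad K k) with hA2
  have hgn : ∀ g ∈ good K k, ∀ s : G, (s = g ∨ s = -g) → z + s ≠ 0 := by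
    intro g hg s hs h
    have hg' : wt K g = 2 * k := (mem_filter.1 hg).2
    have e : z = -s := eq_neg_of_add_eq_zero_left h
    rw [e, wt_neg] at hz
    rcases hs with rfl | rfl
    · omega
    · rw [wt_neg] at hz; omega
  have hsub : good K k ⊆ A1 ∪ A2 := by
    intro g hg
    by_cases h1 : wt K (z + g) = 2 * k
    · refine mem_union_right _ (mem_filter.2 ⟨hg, mem_filter.2 ⟨mem_univ _, ?_⟩⟩)
      rcases hw (z + -g) (hgn g hg _ (Or.inr rfl)) with h | h | h
      · exact absurd ⟨h1, h⟩ (hnot g hg)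
      · omega
      · omega
    · refine mem_union_left _ (mem_filter.2 ⟨hg, mem_filter.2 ⟨mem_univ _, ?_⟩⟩)
      rcases hw (z + g) (hgn g hg _ (Or.inl rfl)) with h | h | h
      · exact absurd h h1
      · omega
      · omega
  have hzb : z ∈ bad K k := mem_filter.2 ⟨mem_univ _, by omega⟩
  have c1 : A1.card ≤ ((bad K k).erase z).card := by
    refine Finset.card_le_card_of_injOn (fun g => z + g) ?_ ?_
    · intro g hg
      have hg' := mem_filter.1 (mem_coe.1 hg)
      refine mem_coe.2 (mem_erase.2 ⟨?_, hg'.2⟩)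
      intro h
      have h' : z + g = z := h
      have g0 : g = 0 := by simpa using h'
      have := (mem_filter.1 hg'.1).2
      rw [g0, wt_zero] at this
      omega
    · intro x _ y _ h
      exact add_right_injective z h
  have c2 : A2.card ≤ ((bad K k).erase z).card := by
    refine Finset.card_le_card_of_injOn (fun g => z + -g) ?_ ?_
    · intro g hg
      have hg' := mem_filter.1 (mem_coe.1 hg)
      refine mem_coe.2 (mem_erase.2 ⟨?_, hg'.2⟩)
      intro h
      have h' : z + -g = z := h
      have g0 : g = 0 := by simpa using h'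
      have := (mem_filter.1 hg'.1).2
      rw [g0, wt_zero] at this
      omega
    · intro x _ y _ h
      exact neg_injective (add_right_injective z h)
  rw [card_erase_of_mem hzb] at c1 c2
  have c3 := card_le_card hsub
  have c4 := card_union_le A1 A2
  have c5 := univ_le (K := K) k hw
  have hbp : 0 < (bad K k).card := card_pos.2 ⟨z, hzb⟩
  have : Fintype.card G ≤ 3 * (2 * b) := by omega
  nlinarith

theorem short_case (k b : ℕ) (hk : 2 ≤ k)
    (hw : ∀ g : G, g ≠ 0 → wt K g = 2 * k ∨ wt K g = 3 * k ∨ wt K g = 4 * k)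
    (hbad : (bad K k).card ≤ 2 * b)
    (hgood : ∀ g : G, wt K g = 2 * k → g + g = 0 ∨ g + g + g = 0)
    (h2 : ¬ ∀ x : G, x + x = 0) (h3 : ¬ ∀ x : G, x + x + x = 0) :
    Fintype.card G ≤ 4 * k * (b + 1) := by
  let A2 : AddSubgroup G := (nsmulAddMonoidHom (α := G) 2).ker
  let A3 : AddSubgroup G := (nsmulAddMonoidHom (α := G) 3).ker
  have m2 : ∀ x, x ∈ A2 ↔ x + x = 0 := by
    intro x
    show (2 : ℕ) • x = 0 ↔ _
    rw [two_nsmul]
  have m3 : ∀ x, x ∈ A3 ↔ x + x + x = 0 := by
    intro x
    show (3 : ℕ) • x = 0 ↔ _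
    rw [show (3 : ℕ) = 2 + 1 from rfl, add_nsmul, two_nsmul, one_nsmul]
  have half : ∀ A : AddSubgroup G, (∃ x, x ∉ A) → 2 * Nat.card A ≤ Fintype.card G := by
    rintro A ⟨x, hx⟩
    have e := AddSubgroup.card_mul_index A
    rw [Nat.card_eq_fintype_card (α := G)] at e
    have h1 : A.index ≠ 1 := by
      intro h
      rw [AddSubgroup.index_eq_one] at h
      exact hx (h ▸ AddSubgroup.mem_top x)
    have h0 : A.index ≠ 0 := AddSubgroup.index_ne_zero_of_finite
    have : 2 ≤ A.index := by omega
    calc 2 * Nat.card A = Nat.card A * 2 := by ring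
      _ ≤ Nat.card A * A.index := Nat.mul_le_mul_left _ this
      _ = _ := e
  have a2 : 2 * Nat.card A2 ≤ Fintype.card G := by
    apply half
    push Not at h2
    obtain ⟨x, hx⟩ := h2
    exact ⟨x, fun h => hx ((m2 x).1 h)⟩
  have a3 : 2 * Nat.card A3 ≤ Fintype.card G := by
    apply half
    push Not at h3
    obtain ⟨x, hx⟩ := h3
    exact ⟨x, fun h => hx ((m3 x).1 h)⟩
  have a23 : Nat.card A2 * Nat.card A3 ≤ Fintype.card G := by
    rw [← Nat.card_prod, ← Nat.card_eq_fintype_card]
    refine Nat.card_le_card_of_injective (fun p : A2 × A3 => (p.1 : G) + (p.2 : G)) ?_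
    rintro ⟨⟨x, hx⟩, ⟨y, hy⟩⟩ ⟨⟨x', hx'⟩, ⟨y', hy'⟩⟩ h
    have h' : x + y = x' + y' := h
    have e : x - x' = y' - y := by
      rw [sub_eq_sub_iff_add_eq_add, h']; abel
    have b1 : x - x' ∈ A2 := A2.sub_mem hx hx'
    have b2 : x - x' ∈ A3 := by rw [e]; exact A3.sub_mem hy' hy
    rw [m2] at b1
    rw [m3, b1, zero_add] at b2
    have hxx : x = x' := sub_eq_zero.1 b2
    have hyy : y = y' := by
      rw [e] at b2
      exact (sub_eq_zero.1 b2).symm
    subst hxx; subst hyy; rfl
  have p2 : 0 < Nat.card A2 := Nat.card_pos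
  have p3 : 0 < Nat.card A3 := Nat.card_pos
  have hcov : (univ : Finset G) ⊆ bad K k ∪ ((univ.filter (fun x => x ∈ A2)) ∪ (univ.filter (fun x => x ∈ A3))) := by
    intro x _
    by_cases h0 : x = 0
    · refine mem_union_right _ (mem_union_left _ (mem_filter.2 ⟨mem_univ _, ?_⟩))
      rw [h0]; exact A2.zero_mem
    · rcases hw x h0 with h | h | h
      · rcases hgood x h with h' | h'
        · exact mem_union_right _ (mem_union_left _ (mem_filter.2 ⟨mem_univ _, (m2 x).2 h'⟩))
        · exact mem_union_right _ (mem_union_right _ (mem_filter.2 ⟨mem_univ _, (m3 x).2 h'⟩))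
      · exact mem_union_left _ (mem_filter.2 ⟨mem_univ _, by omega⟩)
      · exact mem_union_left _ (mem_filter.2 ⟨mem_univ _, by omega⟩)
  have d1 := card_le_card hcov
  have d2 := card_union_le (bad K k) ((univ.filter (fun x => x ∈ A2)) ∪ (univ.filter (fun x => x ∈ A3)))
  have d3 := card_union_add_card_inter (univ.filter (fun x => x ∈ A2)) (univ.filter (fun x => x ∈ A3))
  have d4 : 0 < ((univ.filter (fun x => x ∈ A2)) ∩ (univ.filter (fun x => x ∈ A3))).card := by
    refine card_pos.2 ⟨0, mem_inter.2 ⟨mem_filter.2 ⟨mem_univ _, A2.zero_mem⟩,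
      mem_filter.2 ⟨mem_univ _, A3.zero_mem⟩⟩⟩
  have q2 : (univ.filter (fun x => x ∈ A2)).card = Nat.card A2 := by
    convert card_filter_mem A2
  have q3 : (univ.filter (fun x => x ∈ A3)).card = Nat.card A3 := by
    convert card_filter_mem A3
  rw [q2, q3] at d3
  rw [Finset.card_univ] at d1
  have key : Fintype.card G ≤ 2 * (bad K k).card + 2 := by
    rcases Nat.lt_or_ge (Nat.card A2) 2 with q | q
    · omega
    · rcases Nat.lt_or_ge (Nat.card A3) 2 with q' | q'
      · omega
      · obtain ⟨s, hs⟩ : ∃ s, Nat.card A2 = s + 2 := ⟨Nat.card A2 - 2, by omega⟩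
        obtain ⟨t, ht⟩ : ∃ t, Nat.card A3 = t + 2 := ⟨Nat.card A3 - 2, by omega⟩
        rw [hs, ht] at a23 d3
        have : (s + 2) * (t + 2) = s * t + 2 * s + 2 * t + 4 := by ring
        rw [this] at a23
        have := Nat.zero_le (s * t)
        omega
  nlinarith

/-- **The bound.** -/
theorem main_bound (k b : ℕ) (hk : 2 ≤ k) (hb : 2 ≤ b) (ht : G → ℕ)
    (hht : ∀ g : G, g ≠ 0 → ht g = k ∨ ht g = 2 * k)
    (hwt : ∀ g : G, wt K g = ht g + ht (-g))
    (hbc : (univ.filter (fun g => ht g = 2 * k)).card = b)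
    (he2 : (∀ x : G, x + x = 0) → ∀ i x y, x ∉ K i → y ∉ K i → x - y ∈ K i)
    (he3 : (∀ x : G, x + x + x = 0) → ∀ i x y, x ∉ K i → y ∉ K i → x - y ∈ K i ∨ x + y ∈ K i) :
    Fintype.card G ≤ 4 * k * (b + 1) := by
  have hw : ∀ g : G, g ≠ 0 → wt K g = 2 * k ∨ wt K g = 3 * k ∨ wt K g = 4 * k := by
    intro g hg
    have h1 := hht g hg
    have h2 := hht (-g) (neg_ne_zero.2 hg)
    rw [hwt g]
    omega
  have h00 : ht 0 = 0 := by
    have := hwt 0
    rw [wt_zero] at this
    omega
  have hnegc : (univ.filter (fun g => ht (-g) = 2 * k)).card = b := by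
    rw [← hbc]
    refine Finset.card_bij (fun x _ => -x) ?_ ?_ ?_
    · intro x hx
      exact mem_filter.2 ⟨mem_univ _, (mem_filter.1 hx).2⟩
    · intro x _ y _ h
      exact neg_injective h
    · intro y hy
      exact ⟨-y, mem_filter.2 ⟨mem_univ _, by simpa using (mem_filter.1 hy).2⟩, by simp⟩
  have hbad : (bad K k).card ≤ 2 * b := by
    have : bad K k ⊆ (univ.filter (fun g => ht g = 2 * k)) ∪ (univ.filter (fun g => ht (-g) = 2 * k)) := by
      intro x hx
      have hx' : 3 * k ≤ wt K x := (mem_filter.1 hx).2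
      have hx0 : x ≠ 0 := by
        rintro rfl
        rw [wt_zero] at hx'
        omega
      rw [hwt x] at hx'
      rcases hht x hx0 with h1 | h1
      · rcases hht (-x) (neg_ne_zero.2 hx0) with h2 | h2
        · omega
        · exact mem_union_right _ (mem_filter.2 ⟨mem_univ _, h2⟩)
      · exact mem_union_left _ (mem_filter.2 ⟨mem_univ _, h1⟩)
    have h1 := card_le_card this
    have h2 := card_union_le (univ.filter (fun g => ht g = 2 * k)) (univ.filter (fun g => ht (-g) = 2 * k))
    omega
  have hne : (bad K k).Nonempty := by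
    have : 0 < (univ.filter (fun g => ht g = 2 * k)).card := by omega
    obtain ⟨g, hg⟩ := card_pos.1 this
    have hg' : ht g = 2 * k := (mem_filter.1 hg).2
    have hg0 : g ≠ 0 := by
      rintro rfl
      omega
    refine ⟨g, mem_filter.2 ⟨mem_univ _, ?_⟩⟩
    rw [hwt g, hg']
    rcases hht (-g) (neg_ne_zero.2 hg0) with h | h <;> omega
  by_cases hlong : ∃ g, wt K g = 2 * k ∧ 4 ≤ (univ.filter (fun c => c ∈ Csub K (sup K g))).card
  · obtain ⟨g, hg, hg4⟩ := hlong
    exact case_long k b hk (by omega) hw hbad hne (Csub K (sup K g)) (sup K g) hg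
      (fun c hc i hi => mem_Csub.1 hc i hi) (Csub_two k hw g hg) (fun c hc => mem_Csub.2 hc) hg4
  · push Not at hlong
    have hgood : ∀ g : G, wt K g = 2 * k → g + g = 0 ∨ g + g + g = 0 := by
      intro g hg
      have h4 := hlong g hg
      rw [card_filter_mem] at h4
      have hg0 : g ≠ 0 := by
        rintro rfl
        rw [wt_zero] at hg
        omega
      have h2 : 2 ≤ Nat.card (Csub K (sup K g)) := by
        rw [← card_filter_mem]
        have : ({0, g} : Finset G) ⊆ univ.filter (fun c => c ∈ Csub K (sup K g)) := by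
          intro c hc
          rw [mem_insert, mem_singleton] at hc
          rcases hc with rfl | rfl
          · exact mem_filter.2 ⟨mem_univ _, AddSubgroup.zero_mem _⟩
          · exact mem_filter.2 ⟨mem_univ _, self_mem_Csub c⟩
        have h5 := card_le_card this
        rw [card_pair hg0.symm] at h5
        exact h5
      have h6 : (Nat.card (Csub K (sup K g))) • (⟨g, self_mem_Csub g⟩ : Csub K (sup K g)) = 0 :=
        card_nsmul_eq_zero'
      have h7 : (Nat.card (Csub K (sup K g))) • g = 0 :=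
        congrArg (fun x : Csub K (sup K g) => (x : G)) h6
      have h8 : Nat.card (Csub K (sup K g)) = 2 ∨ Nat.card (Csub K (sup K g)) = 3 := by omega
      rcases h8 with h8 | h8
      · left
        rw [h8, two_nsmul] at h7
        exact h7
      · right
        rw [h8, show (3 : ℕ) = 2 + 1 from rfl, add_nsmul, two_nsmul, one_nsmul] at h7
        exact h7
    by_cases e2 : ∀ x : G, x + x = 0
    · have hneg : ∀ x : G, -x = x := fun x => neg_eq_of_add_eq_zero_left (e2 x)
      have hB : cnt K (4 * k) = b := by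
        rw [← hbc, cnt]
        congr 1
        ext g
        simp only [mem_filter, mem_univ, true_and]
        rw [hwt g, hneg g]
        omega
      have hA : cnt K (3 * k) = 0 := by
        rw [cnt, card_eq_zero]
        ext g
        simp only [mem_filter, mem_univ, true_and, notMem_empty, iff_false]
        intro h
        have hg0 : g ≠ 0 := by
          rintro rfl
          rw [wt_zero] at h
          omega
        rw [hwt g, hneg g] at h
        rcases hht g hg0 with h' | h' <;> omega
      exact exp_two k b hk (by omega) hw hA hB (he2 e2)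
    · by_cases e3 : ∀ x : G, x + x + x = 0
      · by_cases hz : ∃ z : G, wt K z = 4 * k
        · obtain ⟨z, hz⟩ := hz
          exact exp_three_four k b hk hb e3 hw hbad z hz
        · push Not at hz
          have hB : cnt K (4 * k) = 0 := by
            rw [cnt, card_eq_zero]
            ext g
            simp [hz g]
          have hA : cnt K (3 * k) = 2 * b := by
            have : univ.filter (fun g => wt K g = 3 * k)
                = (univ.filter (fun g => ht g = 2 * k)) ∪ (univ.filter (fun g => ht (-g) = 2 * k)) := by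
              ext g
              simp only [mem_filter, mem_univ, true_and, mem_union]
              by_cases hg0 : g = 0
              · subst hg0
                rw [wt_zero, neg_zero, h00]
                omega
              · have h4 := hz g
                rw [hwt g] at h4 ⊢
                rcases hht g hg0 with h' | h' <;> rcases hht (-g) (neg_ne_zero.2 hg0) with h'' | h'' <;>
                  omega
            rw [cnt, this, card_union_of_disjoint, hbc, hnegc]
            · ring
            · rw [Finset.disjoint_left]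
              intro g h1 h2
              have h1' := (mem_filter.1 h1).2
              have h2' := (mem_filter.1 h2).2
              apply hz g
              rw [hwt g, h1', h2']
              ring
          exact exp_three k b hk hb e3 hw hA hB (he3 e3)
      · exact short_case k b hk hw hbad hgood e2 e3

end

end Pool.Agent.Q224.Tri
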