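import Pool.Agent.Q224.Tri.D

/-!
The group of a lattice simplex.
-/

namespace Pool.Agent.Q224.Tri

set_option linter.unusedSectionVars false

open Finset
open scoped Classical

noncomputable section

variable {d : ℕ} {ι : Type} [Fintype ι] (v : ι → Fin d → ℤ)

/-- the combination of the vertices with coefficients `l` -/
def tau (l : ι → ℝ) : Fin d → ℝ := fun j => ∑ i, l i * v i j

theorem tau_add (l l' : ι → ℝ) : tau v (l + l') = tau v l + tau v l' := by
  funext j
  simp only [tau, Pi.add_apply, add_mul, Finset.sum_add_distrib]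

theorem tau_neg (l : ι → ℝ) : tau v (-l) = -tau v l := by
  funext j
  simp only [tau, Pi.neg_apply, neg_mul, Finset.sum_neg_distrib]

theorem tau_zero : tau v 0 = 0 := by
  funext j; simp [tau]

/-- coefficient vectors with integer sum and integer combination -/
def Lam : AddSubgroup (ι → ℝ) where
  carrier := {l | (∃ n : ℤ, ∑ i, l i = n) ∧ ∀ j, ∃ n : ℤ, tau v l j = n}
  zero_mem' := ⟨⟨0, by simp⟩, fun j => ⟨0, by simp [tau_zero]⟩⟩
  add_mem' := by
    rintro a b ⟨⟨n, hn⟩, h⟩ ⟨⟨m, hm⟩, h'⟩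
    refine ⟨⟨n + m, ?_⟩, fun j => ?_⟩
    · simp only [Pi.add_apply, Finset.sum_add_distrib, hn, hm]; push_cast; ring
    · obtain ⟨x, hx⟩ := h j
      obtain ⟨y, hy⟩ := h' j
      exact ⟨x + y, by rw [tau_add, Pi.add_apply, hx, hy]; push_cast; ring⟩
  neg_mem' := by
    rintro a ⟨⟨n, hn⟩, h⟩
    refine ⟨⟨-n, ?_⟩, fun j => ?_⟩
    · simp only [Pi.neg_apply, Finset.sum_neg_distrib, hn]; push_cast; ring
    · obtain ⟨x, hx⟩ := h j
      exact ⟨-x, by rw [tau_neg, Pi.neg_apply, hx]; push_cast; ring⟩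

/-- integer vectors -/
def Nn (ι : Type) [Fintype ι] : AddSubgroup (ι → ℝ) where
  carrier := {l | ∀ i, ∃ n : ℤ, l i = n}
  zero_mem' := fun i => ⟨0, by simp⟩
  add_mem' := by
    intro a b ha hb i
    obtain ⟨n, hn⟩ := ha i
    obtain ⟨m, hm⟩ := hb i
    exact ⟨n + m, by rw [Pi.add_apply, hn, hm]; push_cast; ring⟩
  neg_mem' := by
    intro a ha i
    obtain ⟨n, hn⟩ := ha i
    exact ⟨-n, by rw [Pi.neg_apply, hn]; push_cast; ring⟩

theorem Nn_le : Nn ι ≤ Lam v := by
  intro l hl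
  choose n hn using hl
  refine ⟨⟨∑ i, n i, ?_⟩, fun j => ⟨∑ i, n i * v i j, ?_⟩⟩
  · push_cast
    exact Finset.sum_congr rfl fun i _ => hn i
  · simp only [tau]
    push_cast
    exact Finset.sum_congr rfl fun i _ => by rw [hn i]

/-- the group of the simplex -/
abbrev Gr := Lam v ⧸ ((Nn ι).addSubgroupOf (Lam v))

/-- the class of a vector -/
def mk (l : Lam v) : Gr v := QuotientAddGroup.mk l

/-- the representative with coordinates in `[0,1)` -/
def rep (g : Gr v) : ι → ℝ := fun i => Int.fract (((Quotient.out g : Lam v) : ι → ℝ) i)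

variable {v}

theorem mk_eq {l l' : Lam v} : mk v l = mk v l' ↔ ∀ i, ∃ n : ℤ, l'.1 i - l.1 i = n := by
  rw [mk, mk, QuotientAddGroup.eq, AddSubgroup.mem_addSubgroupOf]
  constructor
  · intro h i
    obtain ⟨n, hn⟩ := h i
    exact ⟨n, by rw [← hn]; simp; ring⟩
  · intro h i
    obtain ⟨n, hn⟩ := h i
    exact ⟨n, by rw [← hn]; simp; ring⟩

theorem rep_mk (l : Lam v) (i : ι) : rep v (mk v l) i = Int.fract (l.1 i) := by
  have h : mk v (Quotient.out (mk v l)) = mk v l := Quotient.out_eq _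
  obtain ⟨n, hn⟩ := mk_eq.1 h i
  show Int.fract (((Quotient.out (mk v l) : Lam v) : ι → ℝ) i) = _
  have e : l.1 i = ((Quotient.out (mk v l) : Lam v) : ι → ℝ) i + n := by rw [← hn]; ring
  rw [e, Int.fract_add_intCast]

theorem mk_surj (g : Gr v) : ∃ l : Lam v, mk v l = g := ⟨Quotient.out g, Quotient.out_eq _⟩

theorem rep_nonneg (g : Gr v) (i : ι) : 0 ≤ rep v g i := Int.fract_nonneg _

theorem rep_lt (g : Gr v) (i : ι) : rep v g i < 1 := Int.fract_lt_one _

theorem rep_mem (g : Gr v) : rep v g ∈ Lam v := by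
  obtain ⟨l, rfl⟩ := mk_surj g
  have h : (fun i => ((⌊l.1 i⌋ : ℤ) : ℝ)) ∈ Nn ι := fun i => ⟨_, rfl⟩
  have h2 := (Lam v).sub_mem l.2 (Nn_le v h)
  have e : rep v (mk v l) = l.1 - (fun i => ((⌊l.1 i⌋ : ℤ) : ℝ)) := by
    funext i
    rw [rep_mk, Pi.sub_apply, Int.fract]
  rw [e]; exact h2

theorem mk_rep (g : Gr v) : mk v ⟨rep v g, rep_mem g⟩ = g := by
  obtain ⟨l, rfl⟩ := mk_surj g
  rw [mk_eq]
  intro i
  refine ⟨⌊l.1 i⌋, ?_⟩
  show l.1 i - rep v (mk v l) i = _
  rw [rep_mk, Int.self_sub_fract]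

theorem rep_inj {g h : Gr v} (e : rep v g = rep v h) : g = h := by
  rw [← mk_rep g, ← mk_rep h]
  congr 1
  exact Subtype.ext e

theorem rep_add (g h : Gr v) (i : ι) : rep v (g + h) i = Int.fract (rep v g i + rep v h i) := by
  obtain ⟨l, rfl⟩ := mk_surj g
  obtain ⟨m, rfl⟩ := mk_surj h
  have : mk v l + mk v m = mk v (l + m) := rfl
  rw [this, rep_mk, rep_mk, rep_mk]
  show Int.fract (l.1 i + m.1 i) = _
  rw [Int.fract_eq_fract]
  refine ⟨⌊l.1 i⌋ + ⌊m.1 i⌋, ?_⟩
  push_cast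
  rw [Int.fract, Int.fract]
  ring

theorem rep_neg (g : Gr v) (i : ι) : rep v (-g) i = Int.fract (-rep v g i) := by
  obtain ⟨l, rfl⟩ := mk_surj g
  have : -mk v l = mk v (-l) := rfl
  rw [this, rep_mk, rep_mk]
  show Int.fract (-l.1 i) = _
  rw [Int.fract_eq_fract]
  refine ⟨-⌊l.1 i⌋, ?_⟩
  push_cast
  rw [Int.fract]
  ring

theorem rep_zero (i : ι) : rep v 0 i = 0 := by
  have : (0 : Gr v) = mk v 0 := rfl
  rw [this, rep_mk]
  simp

theorem fract_idem (x : ℝ) (h0 : 0 ≤ x) (h1 : x < 1) : Int.fract x = x := Int.fract_eq_self.2 ⟨h0, h1⟩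

variable (v)

/-- elements with `i`-th coordinate zero -/
def Ks (i : ι) : AddSubgroup (Gr v) where
  carrier := {g | rep v g i = 0}
  zero_mem' := rep_zero i
  add_mem' := by
    intro a b ha hb
    show rep v (a + b) i = 0
    rw [rep_add, ha, hb]; simp
  neg_mem' := by
    intro a ha
    show rep v (-a) i = 0
    rw [rep_neg, ha]; simp

variable {v}

theorem mem_Ks {i : ι} {g : Gr v} : g ∈ Ks v i ↔ rep v g i = 0 := Iff.rfl

/-- the height -/
def ht (g : Gr v) : ℕ := (⌊∑ i, rep v g i⌋).toNat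

theorem ht_eq (g : Gr v) : (ht g : ℝ) = ∑ i, rep v g i := by
  obtain ⟨⟨n, hn⟩, -⟩ := rep_mem g
  have h0 : 0 ≤ ∑ i, rep v g i := Finset.sum_nonneg fun i _ => rep_nonneg g i
  rw [ht, hn, Int.floor_intCast]
  rw [hn] at h0
  have : (0 : ℤ) ≤ n := by exact_mod_cast h0
  have h2 : ((n.toNat : ℤ) : ℝ) = n := by rw [Int.toNat_of_nonneg this]
  exact_mod_cast h2

theorem ht_zero_iff (g : Gr v) : ht g = 0 ↔ g = 0 := by
  constructor
  · intro h
    have h1 := ht_eq g
    rw [h] at h1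
    have h2 : ∑ i, rep v g i = 0 := by rw [← h1]; simp
    rw [Finset.sum_eq_zero_iff_of_nonneg (fun i _ => rep_nonneg g i)] at h2
    apply rep_inj
    funext i
    rw [h2 i (mem_univ i), rep_zero]
  · rintro rfl
    have h1 := ht_eq (v := v) 0
    have h2 : ∑ i, rep v (0 : Gr v) i = 0 := Finset.sum_eq_zero fun i _ => rep_zero i
    rw [h2] at h1
    exact_mod_cast h1

theorem wt_eq (g : Gr v) : wt (Ks v) g = ht g + ht (-g) := by
  have h : ((ht g + ht (-g) : ℕ) : ℝ) = (wt (Ks v) g : ℕ) := by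
    push_cast
    rw [ht_eq, ht_eq, ← Finset.sum_add_distrib, wt, sup, Finset.card_filter]
    push_cast
    refine Finset.sum_congr rfl fun i _ => ?_
    rw [rep_neg]
    by_cases h0 : rep v g i = 0
    · rw [if_neg (by rw [not_not]; exact mem_Ks.2 h0), h0]; simp
    · rw [if_pos (by rw [mem_Ks]; exact h0)]
      have h1 : Int.fract (rep v g i) = rep v g i := fract_idem _ (rep_nonneg g i) (rep_lt g i)
      have h2 : Int.fract (rep v g i) ≠ 0 := by rw [h1]; exact h0
      rw [Int.fract_neg h2, h1]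
      ring
  exact_mod_cast h.symm

theorem exp2 (h : ∀ x : Gr v, x + x = 0) (i : ι) (x y : Gr v) (hx : x ∉ Ks v i) (hy : y ∉ Ks v i) :
    x - y ∈ Ks v i := by
  have key : ∀ z : Gr v, z ∉ Ks v i → rep v z i = 1 / 2 := by
    intro z hz
    have e := rep_add z z i
    rw [h z, rep_zero] at e
    have h0 := rep_nonneg z i
    have h1 := rep_lt z i
    have h2 : rep v z i ≠ 0 := hz
    obtain ⟨n, hn⟩ : ∃ n : ℤ, rep v z i + rep v z i = n := by
      refine ⟨⌊rep v z i + rep v z i⌋, ?_⟩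
      have := Int.fract_add_floor (rep v z i + rep v z i)
      rw [← e] at this
      linarith
    have hpos : 0 < rep v z i := lt_of_le_of_ne h0 (Ne.symm h2)
    have a1 : (0 : ℝ) < n := by rw [← hn]; linarith
    have a2 : (n : ℝ) < 2 := by rw [← hn]; linarith
    have b1 : 0 < n := by exact_mod_cast a1
    have b2 : n < 2 := by exact_mod_cast a2
    have : n = 1 := by omega
    rw [this] at hn
    push_cast at hn
    linarith
  rw [mem_Ks, sub_eq_add_neg, rep_add, rep_neg, key x hx, key y hy]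
  have : Int.fract (-(1 / 2 : ℝ)) = 1 / 2 := by
    have h1 : Int.fract (1 / 2 : ℝ) = 1 / 2 := fract_idem _ (by norm_num) (by norm_num)
    rw [Int.fract_neg (by rw [h1]; norm_num), h1]
    norm_num
  rw [this]
  norm_num

theorem exp3 (h : ∀ x : Gr v, x + x + x = 0) (i : ι) (x y : Gr v) (hx : x ∉ Ks v i)
    (hy : y ∉ Ks v i) : x - y ∈ Ks v i ∨ x + y ∈ Ks v i := by
  have key : ∀ z : Gr v, z ∉ Ks v i → rep v z i = 1 / 3 ∨ rep v z i = 2 / 3 := by
    intro z hz
    have e := rep_add (z + z) z i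
    rw [h z, rep_zero, rep_add z z] at e
    have h0 := rep_nonneg z i
    have h1 := rep_lt z i
    have h2 : rep v z i ≠ 0 := hz
    obtain ⟨n, hn⟩ : ∃ n : ℤ, 3 * rep v z i = n := by
      refine ⟨⌊Int.fract (rep v z i + rep v z i) + rep v z i⌋ + ⌊rep v z i + rep v z i⌋, ?_⟩
      have a := Int.fract_add_floor (Int.fract (rep v z i + rep v z i) + rep v z i)
      have b := Int.fract_add_floor (rep v z i + rep v z i)
      rw [← e] at a
      push_cast
      linarith
    have hpos : 0 < rep v z i := lt_of_le_of_ne h0 (Ne.symm h2)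
    have a1 : (0 : ℝ) < n := by rw [← hn]; linarith
    have a2 : (n : ℝ) < 3 := by rw [← hn]; linarith
    have b1 : 0 < n := by exact_mod_cast a1
    have b2 : n < 3 := by exact_mod_cast a2
    have : n = 1 ∨ n = 2 := by omega
    rcases this with rfl | rfl
    · left; push_cast at hn; linarith
    · right; push_cast at hn; linarith
  have f1 : Int.fract (1 / 3 : ℝ) = 1 / 3 := fract_idem _ (by norm_num) (by norm_num)
  have f2 : Int.fract (2 / 3 : ℝ) = 2 / 3 := fract_idem _ (by norm_num) (by norm_num)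
  have g1 : Int.fract (-(1 / 3) : ℝ) = 2 / 3 := by
    rw [Int.fract_neg (by rw [f1]; norm_num), f1]; norm_num
  have g2 : Int.fract (-(2 / 3) : ℝ) = 1 / 3 := by
    rw [Int.fract_neg (by rw [f2]; norm_num), f2]; norm_num
  rw [mem_Ks, mem_Ks, sub_eq_add_neg, rep_add, rep_add, rep_neg]
  rcases key x hx with hx' | hx' <;> rcases key y hy with hy' | hy'
  · left; rw [hx', hy', g1]; norm_num
  · right; rw [hx', hy']; norm_num
  · right; rw [hx', hy']; norm_num
  · left; rw [hx', hy', g2]; norm_num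

end

end Pool.Agent.Q224.Tri
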