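import Pool.Agent.Q224.Tri.E

/-!
The Ehrhart series of a lattice simplex.
-/

namespace Pool.Agent.Q224.Tri

set_option linter.unusedSectionVars false

open Finset
open scoped Classical Pointwise

noncomputable section

variable {d : ℕ} {ι : Type} [Fintype ι] {v : ι → Fin d → ℤ}

/-- the lattice point of a group element -/
def zz (g : Gr v) : Fin d → ℤ := fun j => ⌊tau v (rep v g) j⌋

theorem zz_eq (g : Gr v) (j : Fin d) : (zz g j : ℝ) = tau v (rep v g) j := by
  obtain ⟨n, hn⟩ := (rep_mem g).2 j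
  rw [zz, hn, Int.floor_intCast]

/-- affine independence -/
def Indep (v : ι → Fin d → ℤ) : Prop := ∀ l : ι → ℝ, ∑ i, l i = 0 → tau v l = 0 → l = 0

theorem Indep.inj (h : Indep v) {l l' : ι → ℝ} (h1 : ∑ i, l i = ∑ i, l' i)
    (h2 : tau v l = tau v l') : l = l' := by
  have := h (l - l') (by simp [Finset.sum_sub_distrib, h1]) (by
    rw [sub_eq_add_neg, tau_add, tau_neg, h2]; simp)
  exact sub_eq_zero.1 this

theorem finite_Gr (h : Indep v) : Finite (Gr v) := by
  let B : Fin d → ℤ := fun j => ∑ i, |v i j|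
  let f : Gr v → ℕ × (Fin d → ℤ) := fun g => (ht g, zz g)
  have hinj : Function.Injective f := by
    intro g g' e
    have e1 : ht g = ht g' := congrArg Prod.fst e
    have e2 : zz g = zz g' := congrArg Prod.snd e
    apply rep_inj
    apply h.inj
    · rw [← ht_eq, ← ht_eq, e1]
    · funext j
      rw [← zz_eq, ← zz_eq, e2]
  have hfin : (Set.range f).Finite := by
    refine Set.Finite.subset ((Set.finite_Iic (Fintype.card ι)).prod (Set.finite_Icc (-B) B)) ?_
    rintro _ ⟨g, rfl⟩
    refine ⟨?_, ?_⟩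
    · show ht g ≤ Fintype.card ι
      have h1 : (ht g : ℝ) ≤ Fintype.card ι := by
        rw [ht_eq, ← Finset.card_univ, Finset.card_eq_sum_ones]
        push_cast
        exact Finset.sum_le_sum fun i _ => (rep_lt g i).le
      exact_mod_cast h1
    · have hb : ∀ j, |(zz g j : ℝ)| ≤ B j := by
        intro j
        rw [zz_eq, tau]
        refine (Finset.abs_sum_le_sum_abs _ _).trans ?_
        simp only [B]
        push_cast
        refine Finset.sum_le_sum fun i _ => ?_
        rw [abs_mul, abs_of_nonneg (rep_nonneg g i)]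
        exact mul_le_of_le_one_left (abs_nonneg _) (rep_lt g i).le
      refine Set.mem_Icc.2 ⟨fun j => ?_, fun j => ?_⟩
      · have := (abs_le.1 (hb j)).1
        show -B j ≤ zz g j
        exact_mod_cast this
      · have := (abs_le.1 (hb j)).2
        exact_mod_cast this
  have : Finite (Set.range f) := hfin
  exact Finite.of_injective_finite_range hinj

/-- number of lattice points of the dilate -/
def lcount (P : Set (Fin d → ℝ)) (m : ℕ) : ℕ :=
  Nat.card {z : Fin d → ℤ // (fun j => (z j : ℝ)) ∈ (m : ℝ) • P}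

theorem count (h : Indep v) [Fintype (Gr v)] (P : Set (Fin d → ℝ))
    (hP : ∀ (m : ℕ) (x : Fin d → ℝ), x ∈ (m : ℝ) • P ↔
      ∃ l : ι → ℝ, (∀ i, 0 ≤ l i) ∧ ∑ i, l i = m ∧ tau v l = x) (m : ℕ) :
    lcount P m = ∑ g : Gr v, if ht g ≤ m then (finsuppAntidiag (univ : Finset ι) (m - ht g)).card
      else 0 := by
  let D : Finset (Σ _ : Gr v, ι →₀ ℕ) := univ.sigma
    (fun g => if ht g ≤ m then finsuppAntidiag (univ : Finset ι) (m - ht g) else ∅)
  have hD : ∀ p : Σ _ : Gr v, ι →₀ ℕ, p ∈ D ↔ ht p.1 + ∑ i, p.2 i = m := by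
    rintro ⟨g, ν⟩
    simp only [D, mem_sigma, mem_univ, true_and]
    by_cases hg : ht g ≤ m
    · rw [if_pos hg, mem_finsuppAntidiag]
      constructor
      · rintro ⟨h1, -⟩
        have : ∑ i, ν i = m - ht g := h1
        omega
      · intro h1
        refine ⟨?_, subset_univ _⟩
        show ∑ i, ν i = m - ht g
        omega
    · rw [if_neg hg]
      constructor
      · intro h1; exact absurd h1 (notMem_empty _)
      · intro h1; omega
  let F : {p // p ∈ D} → {z : Fin d → ℤ // (fun j => (z j : ℝ)) ∈ (m : ℝ) • P} := fun p =>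
    ⟨fun j => zz p.1.1 j + ∑ i, (p.1.2 i : ℤ) * v i j, by
      rw [hP]
      refine ⟨fun i => rep v p.1.1 i + p.1.2 i, fun i => ?_, ?_, ?_⟩
      · have := rep_nonneg p.1.1 i
        positivity
      · rw [Finset.sum_add_distrib, ← ht_eq]
        have := (hD p.1).1 p.2
        exact_mod_cast this
      · funext j
        push_cast
        rw [zz_eq]
        simp only [tau, add_mul, Finset.sum_add_distrib]⟩
  have hFt : ∀ p : {p // p ∈ D}, (fun j => (((F p).1 j : ℤ) : ℝ))
      = tau v (fun i => rep v p.1.1 i + p.1.2 i) := by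
    intro p
    funext j
    show (((zz p.1.1 j + ∑ i, (p.1.2 i : ℤ) * v i j : ℤ)) : ℝ) = _
    push_cast
    rw [zz_eq]
    simp only [tau, add_mul, Finset.sum_add_distrib]
  have hinj : Function.Injective F := by
    intro p q e
    have e1 : tau v (fun i => rep v p.1.1 i + p.1.2 i) = tau v (fun i => rep v q.1.1 i + q.1.2 i) := by
      rw [← hFt, ← hFt, e]
    have e2 : (fun i => rep v p.1.1 i + (p.1.2 i : ℝ)) = (fun i => rep v q.1.1 i + (q.1.2 i : ℝ)) := by
      refine h.inj ?_ e1
      rw [Finset.sum_add_distrib, Finset.sum_add_distrib, ← ht_eq, ← ht_eq]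
      have a := (hD p.1).1 p.2
      have b := (hD q.1).1 q.2
      rw [← b] at a
      exact_mod_cast a
    have e3 : ∀ i, rep v p.1.1 i = rep v q.1.1 i ∧ p.1.2 i = q.1.2 i := by
      intro i
      have e4 : rep v p.1.1 i + (p.1.2 i : ℝ) = rep v q.1.1 i + (q.1.2 i : ℝ) := congrFun e2 i
      have f1 : Int.fract (rep v p.1.1 i + (p.1.2 i : ℝ)) = rep v p.1.1 i := by
        rw [Int.fract_add_natCast]; exact fract_idem _ (rep_nonneg _ _) (rep_lt _ _)
      have f2 : Int.fract (rep v q.1.1 i + (q.1.2 i : ℝ)) = rep v q.1.1 i := by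
        rw [Int.fract_add_natCast]; exact fract_idem _ (rep_nonneg _ _) (rep_lt _ _)
      have f3 : rep v p.1.1 i = rep v q.1.1 i := by rw [← f1, ← f2, e4]
      refine ⟨f3, ?_⟩
      rw [f3] at e4
      have : (p.1.2 i : ℝ) = q.1.2 i := by linarith
      exact_mod_cast this
    have g1 : p.1.1 = q.1.1 := rep_inj (funext fun i => (e3 i).1)
    have g2 : p.1.2 = q.1.2 := Finsupp.ext fun i => (e3 i).2
    apply Subtype.ext
    exact Sigma.ext g1 (heq_of_eq g2)
  have hsurj : Function.Surjective F := by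
    rintro ⟨z, hz⟩
    obtain ⟨l, hl0, hls, hlt⟩ := (hP m _).1 hz
    have hlm : l ∈ Lam v := ⟨⟨m, by rw [hls]; simp⟩, fun j => ⟨z j, by rw [hlt]⟩⟩
    let ν : ι →₀ ℕ := Finsupp.equivFunOnFinite.symm (fun i => ⌊l i⌋₊)
    have hν : ∀ i, (ν i : ℝ) = ⌊l i⌋ := by
      intro i
      have : ν i = ⌊l i⌋₊ := rfl
      rw [this]
      exact natCast_floor_eq_intCast_floor (hl0 i)
    have hrep : ∀ i, rep v (mk v ⟨l, hlm⟩) i + ν i = l i := by
      intro i
      rw [rep_mk, hν]
      exact Int.fract_add_floor _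
    have hmem : (⟨mk v ⟨l, hlm⟩, ν⟩ : Σ _ : Gr v, ι →₀ ℕ) ∈ D := by
      rw [hD]
      have : ((ht (mk v ⟨l, hlm⟩) + ∑ i, ν i : ℕ) : ℝ) = (m : ℝ) := by
        push_cast
        rw [ht_eq, ← Finset.sum_add_distrib, ← hls]
        exact Finset.sum_congr rfl fun i _ => hrep i
      exact_mod_cast this
    refine ⟨⟨_, hmem⟩, ?_⟩
    apply Subtype.ext
    funext j
    have e1 := congrFun (hFt ⟨_, hmem⟩) j
    have e2 : (fun i => rep v (mk v ⟨l, hlm⟩) i + (ν i : ℝ)) = l := funext hrep
    simp only at e1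
    rw [e2, hlt] at e1
    have e3 : (((F ⟨_, hmem⟩).1 j : ℤ) : ℝ) = ((z j : ℤ) : ℝ) := e1
    exact Int.cast_injective e3
  rw [lcount, ← Nat.card_congr (Equiv.ofBijective F ⟨hinj, hsurj⟩), Nat.card_eq_fintype_card,
    Fintype.card_coe]
  simp only [D]
  rw [card_sigma]
  refine Finset.sum_congr rfl fun g _ => ?_
  by_cases hg : ht g ≤ m
  · rw [if_pos hg, if_pos hg]
  · rw [if_neg hg, if_neg hg, card_empty]

open PowerSeries in
theorem series (h : Indep v) [Fintype (Gr v)] (P : Set (Fin d → ℝ))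
    (hP : ∀ (m : ℕ) (x : Fin d → ℝ), x ∈ (m : ℝ) • P ↔
      ∃ l : ι → ℝ, (∀ i, 0 ≤ l i) ∧ ∑ i, l i = m ∧ tau v l = x) :
    (PowerSeries.mk fun m => ((lcount P m : ℕ) : ℤ)) * (1 - PowerSeries.X) ^ Fintype.card ι
      = ∑ g : Gr v, (PowerSeries.X : PowerSeries ℤ) ^ ht g := by
  have h1 : (PowerSeries.mk fun m => ((lcount P m : ℕ) : ℤ))
      = (∑ g : Gr v, (PowerSeries.X : PowerSeries ℤ) ^ ht g) * (PowerSeries.mk 1) ^ Fintype.card ι := by
    ext m
    rw [coeff_mk, count h P hP m, Finset.sum_mul, map_sum]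
    push_cast
    refine Finset.sum_congr rfl fun g _ => ?_
    rw [coeff_X_pow_mul']
    by_cases hg : ht g ≤ m
    · rw [if_pos hg, if_pos hg]
      have h2 : (PowerSeries.mk 1 : PowerSeries ℤ) ^ Fintype.card ι
          = ∏ _i ∈ (univ : Finset ι), (PowerSeries.mk 1 : PowerSeries ℤ) := by
        rw [Finset.prod_const, Finset.card_univ]
      rw [h2, coeff_prod]
      simp
    · rw [if_neg hg, if_neg hg]
  rw [h1, mul_assoc, ← mul_pow, mk_one_mul_one_sub_eq_one, one_pow, mul_one]

/-- **Simplices.** -/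
theorem simplex_bound (h : Indep v) (P : Set (Fin d → ℝ))
    (hP : ∀ (m : ℕ) (x : Fin d → ℝ), x ∈ (m : ℝ) • P ↔
      ∃ l : ι → ℝ, (∀ i, 0 ≤ l i) ∧ ∑ i, l i = m ∧ tau v l = x)
    (k a b : ℕ) (hk : 2 ≤ k) (hb : 2 ≤ b)
    (hh : (PowerSeries.mk fun m => ((lcount P m : ℕ) : ℤ)) * (1 - PowerSeries.X) ^ Fintype.card ι
      = 1 + (a : PowerSeries ℤ) * PowerSeries.X ^ k + (b : PowerSeries ℤ) * PowerSeries.X ^ (2 * k)) :
    1 + a + b ≤ 4 * k * (b + 1) := by
  have := finite_Gr h
  let _ : Fintype (Gr v) := Fintype.ofFinite _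
  rw [series h P hP] at hh
  have hc : ∀ j : ℕ, (((univ.filter (fun g : Gr v => ht g = j)).card : ℕ) : ℤ)
      = (if j = 0 then 1 else 0) + (if j = k then (a : ℤ) else 0) + (if j = 2 * k then (b : ℤ) else 0) := by
    intro j
    have e := congrArg (PowerSeries.coeff j) hh
    rw [map_sum] at e
    simp only [PowerSeries.coeff_X_pow] at e
    rw [Finset.card_filter]
    push_cast
    have e1 : ∑ g : Gr v, (if ht g = j then (1 : ℤ) else 0) = ∑ g : Gr v, if j = ht g then 1 else 0 :=
      Finset.sum_congr rfl fun g _ => by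
        by_cases hj : ht g = j
        · rw [if_pos hj, if_pos hj.symm]
        · rw [if_neg hj, if_neg (Ne.symm hj)]
    rw [e1, e]
    have e2 : (a : PowerSeries ℤ) = PowerSeries.C (a : ℤ) := by simp
    have e3 : (b : PowerSeries ℤ) = PowerSeries.C (b : ℤ) := by simp
    rw [map_add, map_add, e2, e3, PowerSeries.coeff_C_mul, PowerSeries.coeff_C_mul,
      PowerSeries.coeff_one, PowerSeries.coeff_X_pow, PowerSeries.coeff_X_pow]
    simp
  have hht : ∀ g : Gr v, g ≠ 0 → ht g = k ∨ ht g = 2 * k := by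
    intro g hg
    by_contra hcon
    push Not at hcon
    have e := hc (ht g)
    have h0 : ht g ≠ 0 := fun h' => hg ((ht_zero_iff g).1 h')
    rw [if_neg h0, if_neg hcon.1, if_neg hcon.2] at e
    have e1 : (univ.filter (fun g' : Gr v => ht g' = ht g)).card = 0 := by
      have : (((univ.filter (fun g' : Gr v => ht g' = ht g)).card : ℕ) : ℤ) = 0 := by
        rw [e]; ring
      exact_mod_cast this
    rw [card_eq_zero] at e1
    have : g ∈ univ.filter (fun g' : Gr v => ht g' = ht g) := mem_filter.2 ⟨mem_univ _, rfl⟩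
    rw [e1] at this
    exact absurd this (notMem_empty _)
  have hb' : (univ.filter (fun g : Gr v => ht g = 2 * k)).card = b := by
    have e := hc (2 * k)
    rw [if_neg (by omega), if_neg (by omega), if_pos rfl] at e
    have : (((univ.filter (fun g : Gr v => ht g = 2 * k)).card : ℕ) : ℤ) = b := by rw [e]; ring
    exact_mod_cast this
  have ha' : (univ.filter (fun g : Gr v => ht g = k)).card = a := by
    have e := hc k
    rw [if_neg (by omega), if_pos rfl, if_neg (by omega)] at e
    have : (((univ.filter (fun g : Gr v => ht g = k)).card : ℕ) : ℤ) = a := by rw [e]; ring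
    exact_mod_cast this
  have h0' : (univ.filter (fun g : Gr v => ht g = 0)).card = 1 := by
    have e := hc 0
    rw [if_pos rfl, if_neg (by omega), if_neg (by omega)] at e
    have : (((univ.filter (fun g : Gr v => ht g = 0)).card : ℕ) : ℤ) = 1 := by rw [e]; ring
    exact_mod_cast this
  have hcard : Fintype.card (Gr v) = 1 + a + b := by
    rw [← h0', ← ha', ← hb', ← Finset.card_univ]
    simp_rw [Finset.card_filter, ← Finset.sum_add_distrib, Finset.card_eq_sum_ones]
    refine Finset.sum_congr rfl fun g _ => ?_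
    by_cases hg : g = 0
    · have := (ht_zero_iff g).2 hg
      rw [this, if_pos rfl, if_neg (by omega), if_neg (by omega)]
    · have h0 : ht g ≠ 0 := fun h' => hg ((ht_zero_iff g).1 h')
      rcases hht g hg with h' | h'
      · rw [if_neg h0, h', if_pos rfl, if_neg (by omega)]
      · rw [if_neg h0, h', if_neg (by omega), if_pos rfl]
  have := main_bound (K := Ks v) k b hk hb ht hht wt_eq hb' (fun h i x y hx hy => exp2 h i x y hx hy)
    (fun h i x y hx hy => exp3 h i x y hx hy)
  rw [hcard] at this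
  exact this

end

end Pool.Agent.Q224.Tri
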